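import Pool.Agent.Y484.KA.A1g
import Pool.Agent.Y191.SmallFib

/-!
The pull back of the pluricanonical forms of a variety of log general type: estimates at the prime
divisors of a pair.
-/

set_option autoImplicit false

open FF Pool.Agent.W602.GT Pool.Agent.W603.LV Pool.Agent.TH143.GT Pool.Agent.Y220.OG

namespace Pool.Agent.V1157.KL

/-- the condition on the multiplicities at a prime divisor with the coefficient `δ`: the
coordinates have equal orders and the ramification index over each place in `B` is at least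
`2 (1 - δ)`, or the orders of two of the coordinates differ by at least `μ (1 - δ)` -/
def Mult {K L : Type} [Field K] [Algebra ℂ K] [Field L] [Algebra ℂ L] [Algebra K L] {n : ℕ}
    (y : Fin (n + 1) → K) (B : Place ℂ K → Prop) (μ : ℕ) (P : Place ℂ L) (δ : ℝ) : Prop :=
  ((∀ i, P.ord (algebraMap K L (y i)) = P.ord (algebraMap K L (y 0))) ∧
    ∀ (P0 : Place ℂ K) (e : ℕ), (∀ z : K, P.ord (algebraMap K L z) = e * P0.ord z) → B P0 →
      2 * (1 - δ) ≤ e) ∨
  ∃ i j, (P.ord (algebraMap K L (y i)) : ℝ) + μ * (1 - δ) ≤ P.ord (algebraMap K L (y j))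

/-- the local estimates -/
theorem base_local {K : Type} [Field K] [Algebra ℂ K]
    [Algebra.EssFiniteType ℂ K] {n d : ℕ} (y : Fin (n + 1) → K) (B : Place ℂ K → Prop)
    (hy : ∀ i, y i ≠ 0)
    (htr : Algebra.trdeg ℂ K = d) {N : ℕ}
    (f : Fin (d + 1) → K) (t : Fin d → K) (ht : IsTranscendenceBasis ℂ t)
    (hty : ∀ b, ∃ i, t b = y i / y 0)
    (hlog : ∀ v : Place ℂ K, Divisorial d v → ∀ j, LogAt v (fun D => jac t D ^ N * f j))
    (hreg : ∀ v : Place ℂ K, Divisorial d v →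
      ¬ ((∃ i, v.ord (y i) ≠ v.ord (y 0)) ∨ B v) →
      ∀ j, RegAt v (fun D => jac t D ^ N * f j))
    (a : ℕ) (η : K)
    (hη : ∀ (v : Place ℂ K) (c : ℤ),
      (∀ j, Ge v (-c) (f j)) → Ge v (-(a * c)) η ∧ ∀ i, Ge v (-(a * c) + |v.ord (y i / y 0)|) η)
    (L : Type) [Field L] [Algebra ℂ L] [Algebra K L] [IsScalarTower ℂ K L] {dL : ℕ}
    (hL : Algebra.trdeg ℂ L = dL) (P : Place ℂ L) (hP : Divisorial dL P)
    (j : Fin (d + 1)) (W : ℕ)
    (hW : W = 2 * (N + N * a)) (D : Fin d → Derivation ℂ L L) (hD : ∀ i, DerReg P (D i))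
    (δ : ℝ) (hδ : 0 ≤ δ)
    (hcond : (∀ g : K, P.ord (algebraMap K L g) = 0) ∨ Mult y B (2 * W) P δ) :
    ∃ c' : ℤ, Ge P c' (jac (fun b => algebraMap K L (t b)) D ^ W *
      algebraMap K L (f j * ((∏ b, t b)⁻¹) ^ (N + N * a) * η)) ∧ -(W * δ) ≤ (c' : ℝ) := by
  classical
  have hWδ : (0 : ℝ) ≤ W * δ := mul_nonneg (Nat.cast_nonneg _) hδ
  by_cases htriv : ∀ g : K, P.ord (algebraMap K L g) = 0
  · have hr : ∀ g : K, Ge P 0 (algebraMap K L g) := fun g => Or.inr (htriv g).ge
    refine ⟨0, ?_, by push_cast; linarith⟩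
    have h1 : Ge P 0 (jac (fun b => algebraMap K L (t b)) D) := by
      have h3 := ge_det_col P (Matrix.of fun i b => D i (algebraMap K L (t b)))
        (fun _ => 0) (fun i b => hD i _ (hr _))
      rw [Finset.sum_const_zero] at h3
      exact h3
    have h4 := (h1.pow W).mul (hr (f j * ((∏ b, t b)⁻¹) ^ (N + N * a) * η))
    rw [mul_zero, add_zero] at h4
    exact h4
  have hcond' := hcond.resolve_left htriv
  push Not at htriv
  obtain ⟨e, v, hov⟩ := exists_over (K := K) P htriv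
  have hv : Divisorial d v := Pool.Agent.W419.PG.main ℂ K L d dL v P e htr hL hov hP
  obtain ⟨κ, ⟨D1, hD1, hJ1, ho1⟩, ⟨D2, hD2, hJ2, ho2⟩, hest⟩ := kap htr t ht v hv
  have he : (1 : ℤ) ≤ e := by exact_mod_cast hov.1
  have hy' : ∀ i, y i / y 0 ≠ 0 := fun i => div_ne_zero (hy i) (hy 0)
  have ht0 : ∀ b, t b ≠ 0 := by
    intro b
    obtain ⟨i, hi⟩ := hty b
    rw [hi]
    exact hy' i
  obtain ⟨hR1, hR2⟩ := (hest L P e hov D).1 hD
  set T : ℤ := ∑ b, v.ord (t b) with hT
  have hτ : Ge v (-T) (∏ b, t b)⁻¹ := by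
    right
    rw [v.ord_inv]
    have h1 : v.ord (∏ b, t b) = T := by
      rw [hT]
      have h2 : ∀ s : Finset (Fin d), v.ord (∏ b ∈ s, t b) = ∑ b ∈ s, v.ord (t b) := by
        intro s
        induction s using Finset.induction_on with
        | empty => simp [v.ord_one]
        | insert b s hb ih =>
          rw [Finset.prod_insert hb, Finset.sum_insert hb,
            v.ord_mul (ht0 b) (Finset.prod_ne_zero_iff.2 fun i _ => ht0 i), ih]
      exact h2 Finset.univ
    rw [h1]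
  -- the estimates at `v`
  have F1 : ∀ j, Ge v (-(N * (κ + 1))) (f j) := by
    intro j
    have h1 := hlog v hv j D2 hD2
    change Ge v 0 (jac t D2 ^ N * f j) at h1
    have h2 : v.ord (jac t D2 ^ N) = N * (κ + 1) := by rw [v.ord_pow, ho2]
    have h3 := Ge.of_mul (pow_ne_zero N hJ2) h1
    rw [h2] at h3
    simpa using h3
  have F2 : ¬ ((∃ i, v.ord (y i) ≠ v.ord (y 0)) ∨ B v) →
      ∀ j, Ge v (-(N * κ)) (f j) := by
    intro hb j
    have h1 := hreg v hv hb j D1 hD1
    change Ge v 0 (jac t D1 ^ N * f j) at h1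
    have h2 : v.ord (jac t D1 ^ N) = N * κ := by rw [v.ord_pow, ho1]
    have h3 := Ge.of_mul (pow_ne_zero N hJ1) h1
    rw [h2] at h3
    simpa using h3
  have F3 : T ≤ κ + 1 := by
    have h1 : Ge v T (jac t D2) := ge_det_col v _ (fun b => v.ord (t b)) fun i b =>
      ge_der_log (hD2 i) (ge_ord v (t b))
    have h2 := h1.resolve_left hJ2
    rwa [ho2] at h2
  have F4 : (∀ b, v.ord (t b) = 0) → 0 ≤ κ := by
    intro h0
    have h1 : Ge v (∑ _b : Fin d, (0 : ℤ)) (jac t D1) := ge_det_col v _ (fun _ => (0 : ℤ))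
      fun i b => hD1 i _ (Or.inr (h0 b).ge)
    have h2 := h1.resolve_left hJ1
    rw [ho1] at h2
    simpa using h2
  have hyo : ∀ i, v.ord (y i / y 0) = v.ord (y i) - v.ord (y 0) := fun i =>
    v.ord_div (hy i) (hy 0)
  -- the estimate of the coefficient
  have hcoef : ∀ (c r : ℤ), (∀ j, Ge v (-c) (f j)) → Ge v (-(a * c) + r) η →
      Ge P (e * (-c + (N + N * a : ℕ) * (-T) + (-(a * c) + r)))
        (algebraMap K L (f j * ((∏ b, t b)⁻¹) ^ (N + N * a) * η)) := by
    intro c r h1 h2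
    exact over_ge hov (((h1 j).mul (hτ.pow _)).mul h2)
  have hW' : (W : ℤ) = 2 * (N + N * a) := by rw [hW]; push_cast; ring
  have hN0 : (0 : ℤ) ≤ N := Int.natCast_nonneg N
  have ha0 : (0 : ℤ) ≤ a := Int.natCast_nonneg a
  have hNa : (0 : ℤ) ≤ N + N * a := by positivity
  have hWr : (W : ℝ) = 2 * (N + N * a) := by exact_mod_cast hW'
  have hNar : (0 : ℝ) ≤ N + N * a := by exact_mod_cast hNa
  rcases hcond' with ⟨hBy, hBG⟩ | ⟨i, i', hii⟩
  · have hyv : ∀ i, v.ord (y i) = v.ord (y 0) := by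
      intro i
      have h1 := hBy i
      rw [hov.2, hov.2] at h1
      exact mul_left_cancel₀ (by omega) h1
    have ht1 : ∀ b, v.ord (t b) = 0 := by
      intro b
      obtain ⟨i, hi⟩ := hty b
      rw [hi, hyo, hyv i, sub_self]
    have hT0 : T = 0 := Finset.sum_eq_zero fun b _ => ht1 b
    have hκ := F4 ht1
    by_cases hG : B v
    · have he2 := hBG v e (fun z => hov.2 z) hG
      refine ⟨_, (hR2.pow W).mul (hcoef (N * (κ + 1)) 0 F1 (by
          rw [add_zero]; exact (hη v _ F1).1)), ?_⟩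
      rw [hT0]
      push_cast
      have hκr : (0 : ℝ) ≤ κ := by exact_mod_cast hκ
      have her : (1 : ℝ) ≤ e := by exact_mod_cast hov.1
      have h1 : (e : ℝ) ≤ e * (κ + 1) := by nlinarith
      have h2 : (0 : ℝ) ≤ (N + N * a) * (e * (κ + 1) - 2 * (1 - δ)) :=
        mul_nonneg hNar (by linarith)
      rw [hWr]
      linarith
    · have hnb : ¬ ((∃ i, v.ord (y i) ≠ v.ord (y 0)) ∨ B v) := by
        rintro (⟨i, hi⟩ | h)
        · exact hi (hyv i)
        · exact hG h
      have F2' := F2 hnb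
      refine ⟨_, (hR1.pow W).mul (hcoef (N * κ) 0 F2' (by
          rw [add_zero]; exact (hη v _ F2').1)), ?_⟩
      rw [hT0]
      push_cast
      have h2 : (0 : ℤ) ≤ (N + N * a) * (e * κ) :=
        mul_nonneg hNa (mul_nonneg (by linarith) hκ)
      have h3 : (0 : ℝ) ≤ (N + N * a) * (e * κ) := by exact_mod_cast h2
      rw [hWr] at hWδ ⊢
      linarith
  · rw [hov.2, hov.2] at hii
    push_cast at hii
    have hbig : ∃ i0, (W : ℝ) * (1 - δ) ≤ e * |((v.ord (y i0 / y 0) : ℤ) : ℝ)| := by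
      by_contra hcon
      push Not at hcon
      have h1 := hcon i
      have h2 := hcon i'
      rw [hyo] at h1 h2
      push_cast at h1 h2
      have h3 : (v.ord (y i') : ℝ) - v.ord (y 0) ≤ |(v.ord (y i') : ℝ) - v.ord (y 0)| :=
        le_abs_self _
      have h4 : -((v.ord (y i) : ℝ) - v.ord (y 0)) ≤ |(v.ord (y i) : ℝ) - v.ord (y 0)| :=
        neg_le_abs _
      have her : (0 : ℝ) ≤ e := Nat.cast_nonneg e
      have h5 := mul_le_mul_of_nonneg_left h3 her
      have h6 := mul_le_mul_of_nonneg_left h4 her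
      linarith
    obtain ⟨i0, hi0⟩ := hbig
    refine ⟨_, (hR2.pow W).mul (hcoef (N * (κ + 1)) _ F1 ((hη v _ F1).2 i0)), ?_⟩
    push_cast
    have h1 : (0 : ℤ) ≤ e * ((N + N * a) * (κ + 1 - T)) :=
      mul_nonneg (by linarith) (mul_nonneg hNa (by linarith))
    have h2 : (0 : ℝ) ≤ e * ((N + N * a) * (κ + 1 - T)) := by exact_mod_cast h1
    rw [hWr] at hi0 ⊢
    linarith

/-- **The forms of the base.** -/
theorem base_forms (K : Type) [Field K] [Algebra ℂ K] [Algebra.EssFiniteType ℂ K] (n d : ℕ)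
    (y : Fin (n + 1) → K) (B : Place ℂ K → Prop) (hy : ∀ i, y i ≠ 0)
    (halg : ∀ z : K, IsAlgebraic (IntermediateField.adjoin ℂ (Set.range fun i => y i / y 0)) z)
    (hgt : LogGeneralType ℂ K d (fun P => (∃ i, P.ord (y i) ≠ P.ord (y 0)) ∨ B P)) :
    ∃ (t : Fin d → K) (W : ℕ) (g : Fin (d + 1) → K), IsTranscendenceBasis ℂ t ∧ 0 < W ∧
      g 0 ≠ 0 ∧ AlgebraicIndependent ℂ (fun i : Fin d => g i.succ / g 0) ∧
      ∀ (L : Type) [Field L] [Algebra ℂ L] [Algebra K L] [IsScalarTower ℂ K L] (dL : ℕ),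
        Algebra.trdeg ℂ L = dL → ∀ P : Place ℂ L, Divisorial dL P → ∀ j,
        ∀ D : Fin d → Derivation ℂ L L, (∀ i, DerReg P (D i)) → ∀ δ : ℝ, 0 ≤ δ →
        ((∀ g : K, P.ord (algebraMap K L g) = 0) ∨ Mult y B (2 * W) P δ) →
        ∃ c' : ℤ, Ge P c' (jac (fun b => algebraMap K L (t b)) D ^ W *
          algebraMap K L (g j)) ∧ -(W * δ) ≤ (c' : ℝ) := by
  classical
  obtain ⟨htr, N, hN, ω, hω, hlog, hreg, D0, hD0, hind⟩ := hgt
  -- a transcendence basis among the ratios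
  obtain ⟨t, ht, hty⟩ : ∃ t : Fin d → K, IsTranscendenceBasis ℂ t ∧ ∀ b, ∃ i, t b = y i / y 0 := by
    have h1 : Algebra.IsAlgebraic
        (IntermediateField.adjoin ℂ (Set.range fun i => y i / y 0)) K := ⟨halg⟩
    have h2 := alg_adjoin h1
    obtain ⟨B, hB, hBb⟩ := exists_isTranscendenceBasis_subset (R := ℂ) (A := K)
      (Set.range fun i => y i / y 0)
    have hcard := hBb.cardinalMk_eq_trdeg
    rw [htr] at hcard
    obtain ⟨φ⟩ : Nonempty (Fin d ≃ B) := by
      rw [← Cardinal.eq, Cardinal.mk_fin]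
      exact hcard.symm
    refine ⟨fun i => (φ i : K), hBb.comp_equiv φ, fun b => ?_⟩
    obtain ⟨i, hi⟩ := hB (φ b).2
    exact ⟨i, hi.symm⟩
  choose Et hEt using fun i => exists_der t ht (fun j => if i = j then (1 : K) else 0)
  have hdual : Dual t Et := ⟨ht, hEt⟩
  set f : Fin (d + 1) → K := fun j => ω j Et with hf
  have hωf : ∀ j, ω j = fun D => jac t D ^ N * f j := by
    intro j
    funext D
    have h1 := hω j (Matrix.of fun i j => D i (t j)) Et
    have h2 : (fun i => ∑ j, (Matrix.of fun i j => D i (t j)) i j • Et j) = D := by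
      funext i
      exact (hdual.expand (D i)).symm
    rw [h2] at h1
    exact h1
  have hf0 : f 0 ≠ 0 := by
    intro h0
    apply hD0
    rw [hωf 0]
    simp only [h0, mul_zero]
  have hJ0 : jac t D0 ^ N ≠ 0 := by
    intro h0
    apply hD0
    rw [hωf 0]
    simp only [h0, zero_mul]
  have hratio : (fun i : Fin d => ω i.succ D0 / ω 0 D0) = fun i : Fin d => f i.succ / f 0 := by
    funext i
    rw [hωf 0, hωf i.succ]
    simp only
    rw [mul_div_mul_left _ _ hJ0]
  rw [hratio] at hind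
  have hbasis : IsTranscendenceBasis ℂ (fun i : Fin d => f i.succ / f 0) := by
    refine hind.isTranscendenceBasis_of_lift_trdeg_le_of_finite ?_
    rw [htr]
    simp
  have halg2 : Algebra.IsAlgebraic
      (IntermediateField.adjoin ℂ (Set.range fun i : Fin d => f i.succ / f 0)) K :=
    hbasis.isAlgebraic_field
  obtain ⟨a, η, hη0, hη⟩ := rel_all (k := ℂ) hf0 (fun i => y i / y 0)
    (fun i => div_ne_zero (hy i) (hy 0)) (fun i => halg2.isAlgebraic _)
  have ht0 : ∀ b, t b ≠ 0 := by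
    intro b
    obtain ⟨i, hi⟩ := hty b
    rw [hi]
    exact div_ne_zero (hy i) (hy 0)
  have hτ0 : ((∏ b, t b)⁻¹) ^ (N + N * a) ≠ 0 :=
    pow_ne_zero _ (inv_ne_zero (Finset.prod_ne_zero_iff.2 fun b _ => ht0 b))
  refine ⟨t, 2 * (N + N * a), fun j => f j * ((∏ b, t b)⁻¹) ^ (N + N * a) * η, ht, by positivity,
    mul_ne_zero (mul_ne_zero hf0 hτ0) hη0, ?_, ?_⟩
  · have h1 : (fun i : Fin d => f i.succ * ((∏ b, t b)⁻¹) ^ (N + N * a) * η /
        (f 0 * ((∏ b, t b)⁻¹) ^ (N + N * a) * η)) = fun i : Fin d => f i.succ / f 0 := by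
      funext i
      rw [mul_div_mul_right _ _ hη0, mul_div_mul_right _ _ hτ0]
    rw [h1]
    exact hind
  · intro L _ _ _ _ dL hL P hP j D hD δ hδ hcond
    exact base_local y B hy htr f t ht hty (fun v hv j => by
      have := hlog v hv j
      rwa [hωf j] at this) (fun v hv hb j => by
      have := hreg v hv hb j
      rwa [hωf j] at this) a η hη L hL P hP j _ rfl D hD δ hδ hcond

end Pool.Agent.V1157.KL
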