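import Pool.Agent.V1157.KL.Base

/-!
Products of the forms of a base of log general type and of forms along the fibres.
-/

set_option autoImplicit false

open MvPolynomial Matrix FF Pool.Agent.W603.LV Pool.Agent.W602.GT Pool.Agent.TH585.SV
open Pool.Agent.TH766.MC Pool.Agent.Y191

namespace Pool.Agent.V1157.KL

/-- a frame adapted to a transcendence basis of a subfield -/
theorem exists_frame_sub {K : Type} [Field K] [Algebra ℂ K] {p s : ℕ} {L : IntermediateField ℂ K}
    (hK : Algebra.trdeg ℂ K = (p + s : ℕ))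
    (htr : Algebra.trdeg ℂ L = p) {x : Fin p → K} (hx : AlgebraicIndependent ℂ x)
    (hxL : ∀ j, x j ∈ L)
    (halg : ∀ f ∈ L, IsAlgebraic (IntermediateField.adjoin ℂ (Set.range x)) f) :
    ∃ (u : Fin s → K) (Dt : Fin p → Derivation ℂ K K) (Du : Fin s → Derivation ℂ K K),
      Frame x u Dt Du ∧ ∀ f ∈ L, Hz Du f := by
  classical
  obtain ⟨xL, hxL'⟩ : ∃ xL : Fin p → L, ∀ j, (xL j : K) = x j :=
    ⟨fun j => ⟨x j, hxL j⟩, fun _ => rfl⟩
  have hindL : AlgebraicIndependent ℂ xL := by
    refine AlgebraicIndependent.of_comp L.val ?_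
    have : (L.val ∘ xL) = x := funext hxL'
    rw [this]
    exact hx
  have htrs : Algebra.trdeg L K = s := by
    have h1 := trdeg_add_eq ℂ L (A := K)
    rw [htr, hK] at h1
    push_cast at h1
    rw [add_comm, add_comm (p : Cardinal)] at h1
    exact (Cardinal.add_right_inj_of_lt_aleph0 (Cardinal.natCast_lt_aleph0 (n := p))).mp h1
  obtain ⟨t, ht⟩ := exists_isTranscendenceBasis L K
  have h1 := ht.cardinalMk_eq_trdeg
  rw [htrs] at h1
  obtain ⟨φ⟩ : Nonempty (Fin s ≃ t) := by
    rw [← Cardinal.eq, Cardinal.mk_fin]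
    exact h1.symm
  obtain ⟨u, hu⟩ : ∃ u : Fin s → K, IsTranscendenceBasis L u :=
    ⟨fun i => (φ i : K), ht.comp_equiv φ⟩
  have h2 := hindL.sumElim_comp hu.1
  have h3 : (algebraMap L K ∘ xL) = x := funext hxL'
  rw [h3] at h2
  have h4 : AlgebraicIndependent ℂ (Sum.elim x u) := by
    have := h2.comp (Equiv.sumComm (Fin p) (Fin s)) (Equiv.injective _)
    have h5 : (Sum.elim u x) ∘ (Equiv.sumComm (Fin p) (Fin s)) = Sum.elim x u := by
      funext i
      rcases i with i | i <;> rfl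
    rwa [h5] at this
  have h6 : IsTranscendenceBasis ℂ (Sum.elim x u) := by
    refine h4.isTranscendenceBasis_of_trdeg_le ?_ ?_
    · rw [hK]
      exact Cardinal.natCast_lt_aleph0
    · rw [hK, Cardinal.mk_sum, Cardinal.mk_fin, Cardinal.mk_fin]
      push_cast
      simp
  obtain ⟨Dt, Du, F⟩ := exists_frame h6
  exact ⟨u, Dt, Du, F, fun f hf l => der_alg0 (Du l) (S := Set.range x) (by
    rintro _ ⟨j, rfl⟩
    exact F.ut l j) (halg f hf)⟩

/-- the image of the function field of the base -/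
noncomputable def img (K L : Type) [Field K] [Algebra ℂ K] [Field L] [Algebra ℂ L] [Algebra K L]
    [IsScalarTower ℂ K L] : IntermediateField ℂ L := (IsScalarTower.toAlgHom ℂ K L).fieldRange

theorem mem_img {K L : Type} [Field K] [Algebra ℂ K] [Field L] [Algebra ℂ L] [Algebra K L]
    [IsScalarTower ℂ K L] (f : K) : algebraMap K L f ∈ img K L := ⟨f, rfl⟩

theorem trdeg_img {K L : Type} [Field K] [Algebra ℂ K] [Field L] [Algebra ℂ L] [Algebra K L]
    [IsScalarTower ℂ K L] {p : ℕ} (h : Algebra.trdeg ℂ K = p) :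
    Algebra.trdeg ℂ (img K L) = p := by
  rw [← h]
  exact ((AlgEquiv.ofInjectiveField (IsScalarTower.toAlgHom ℂ K L)).trdeg_eq).symm

/-- **Forms of the base and forms along the fibres.** -/
theorem fib_lgt (K : Type) [Field K] [Algebra ℂ K] [Algebra.EssFiniteType ℂ K] (n p : ℕ)
    (y : Fin (n + 1) → K) (B : Place ℂ K → Prop) (hy : ∀ i, y i ≠ 0)
    (halg : ∀ z : K, IsAlgebraic (IntermediateField.adjoin ℂ (Set.range fun i => y i / y 0)) z)
    (hgt : LogGeneralType ℂ K p (fun P => (∃ i, P.ord (y i) ≠ P.ord (y 0)) ∨ B P)) :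
    ∃ μ : ℕ, ∀ (L : Type) [Field L] [Algebra ℂ L] [Algebra K L] [IsScalarTower ℂ K L]
      (s lam : ℕ), Algebra.trdeg ℂ L = (p + s : ℕ) →
      ∀ (X : Set (Place ℂ L)) (δ₁ δ₂ δ : Place ℂ L → ℝ), (∀ P ∈ X, δ₁ P + δ₂ P ≤ δ P) →
      (∀ P ∈ X, 0 ≤ δ₁ P) →
      (∀ P ∈ X, Divisorial (p + s) P →
        (∀ g : K, P.ord (algebraMap K L g) = 0) ∨ Mult y B μ P (δ₁ P)) →
      ∀ m : ℕ, 0 < m → ∀ θ : Fin (lam + 1) → (Fin s → Derivation (img K L) L L) → L,
      (∀ j, FibSec (p + s) m X δ₂ (img K L) (θ j)) →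
      (∃ G, θ 0 G ≠ 0 ∧
        AlgebraicIndependent (img K L) (fun i : Fin lam => θ i.succ G / θ 0 G)) →
      KodairaGe (p + s) X δ (p + lam) := by
  classical
  obtain ⟨t, W, g, ht, hW, hg0, hgi, hest⟩ := base_forms K n p y B hy halg hgt
  refine ⟨2 * W, ?_⟩
  intro L _ _ _ _ s lam hL X δ₁ δ₂ δ hδ hδ0 hcond m hm θ hθ hne
  obtain ⟨x, hx⟩ : ∃ x : Fin p → L, x = fun b => algebraMap K L (t b) := ⟨_, rfl⟩
  have hind : AlgebraicIndependent ℂ x := by
    rw [hx]
    exact (ht.1.map' (f := IsScalarTower.toAlgHom ℂ K L) (algebraMap K L).injective)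
  have hxL : ∀ j, x j ∈ img K L := fun j => by
    rw [hx]
    exact mem_img _
  have halg2 : ∀ f ∈ img K L, IsAlgebraic (IntermediateField.adjoin ℂ (Set.range x)) f := by
    rintro _ ⟨f, rfl⟩
    have h1 : IsAlgebraic (IntermediateField.adjoin ℂ (Set.range t)) f :=
      ht.isAlgebraic_field.isAlgebraic f
    obtain ⟨q, hq0, hq⟩ := h1
    have hmap : ∀ c : IntermediateField.adjoin ℂ (Set.range t),
        algebraMap K L c ∈ IntermediateField.adjoin ℂ (Set.range x) := by
      intro c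
      have h2 : IntermediateField.adjoin ℂ (Set.range t) ≤
          (IntermediateField.adjoin ℂ (Set.range x)).comap (IsScalarTower.toAlgHom ℂ K L) := by
        rw [IntermediateField.adjoin_le_iff]
        rintro _ ⟨b, rfl⟩
        change algebraMap K L (t b) ∈ IntermediateField.adjoin ℂ (Set.range x)
        refine IntermediateField.subset_adjoin _ _ ⟨b, ?_⟩
        rw [hx]
      exact h2 c.2
    let φ : IntermediateField.adjoin ℂ (Set.range t) →+*
        IntermediateField.adjoin ℂ (Set.range x) :=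
      { toFun := fun c => ⟨algebraMap K L c, hmap c⟩
        map_one' := Subtype.ext (map_one _)
        map_zero' := Subtype.ext (map_zero _)
        map_add' := fun _ _ => Subtype.ext (map_add _ _ _)
        map_mul' := fun _ _ => Subtype.ext (map_mul _ _ _) }
    refine ⟨q.map φ, (Polynomial.map_ne_zero_iff φ.injective).2 hq0, ?_⟩
    change Polynomial.aeval (algebraMap K L f) (q.map φ) = 0
    rw [Polynomial.aeval_def, Polynomial.eval₂_map]
    have h3 : (algebraMap (IntermediateField.adjoin ℂ (Set.range x)) L).comp φ =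
        (algebraMap K L).comp (algebraMap (IntermediateField.adjoin ℂ (Set.range t)) K) := by
      ext c; rfl
    rw [h3]
    have h4 := congrArg (algebraMap K L) hq
    rw [map_zero, Polynomial.aeval_def, Polynomial.hom_eval₂] at h4
    exact h4
  obtain ⟨u, Dt, Du, F, hHz⟩ := exists_frame_sub (L := img K L) hL (trdeg_img hgt.1) hind hxL halg2
  obtain ⟨w, hw⟩ : ∃ w : Fin (p + 1) → L, ∀ j, w j = algebraMap K L (g j / g 0) :=
    ⟨_, fun _ => rfl⟩
  have hg0' : algebraMap K L (g 0) ≠ 0 := (map_ne_zero _).2 hg0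
  have hw0 : w 0 = 1 := by rw [hw, div_self hg0, map_one]
  obtain ⟨ω, h1, D, h2, h3⟩ := F.pairs (κ := p) (w := w) hHz hxL hδ hm
    (fun b => (hθ b).1) (fun P hPX hPd G hG b => (hθ b).2 P hPX hPd G hG) hne
    (M := W) hW
    (f := algebraMap K L (g 0)) hg0' hw0
    (by
      have e1 : (fun i : Fin p => w i.succ) =
          (IsScalarTower.toAlgHom ℂ K L) ∘ (fun i : Fin p => g i.succ / g 0) := by
        funext i
        rw [hw]
        rfl
      rw [e1]
      exact hgi.map' (f := IsScalarTower.toAlgHom ℂ K L) (algebraMap K L).injective)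
    (fun j => by
      rw [hw]
      exact mem_img _)
    (fun P hPX hPd E hE j => by
      obtain ⟨c', h4, h5⟩ := hest L (p + s) hL P hPd j E hE (δ₁ P) (hδ0 P hPX)
        (hcond P hPX hPd)
      refine ⟨c', ?_, h5⟩
      have h6 : algebraMap K L (g 0) * w j = algebraMap K L (g j) := by
        rw [hw, map_div₀, mul_div_cancel₀ _ hg0']
      rw [h6, hx]
      exact h4)
  exact ⟨W * m, Nat.mul_pos hW hm, ω, h1, D, h2, h3⟩

end Pool.Agent.V1157.KL
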