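import Pool.Agent.V1157.KL.LcB
import Pool.Agent.Y191.CycNv

/-!
Abundance for fibre products of families of cyclic covers over a variety of log general type.
-/

set_option autoImplicit false
set_option linter.overlappingInstances false
set_option linter.unusedSectionVars false

open FF Pool.Agent.W602.GT Pool.Agent.W603.LV Pool.Agent.TH585.SV Pool.Agent.W619.PQ
open Pool.Agent.Y172 Pool.Agent.Y191

namespace Pool.Agent.V1157.KL

/-- **Abundance**, products of cyclic covers over a base of log general type. -/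
theorem cyc_lgt (K0 : Type) [Field K0] [Algebra ℂ K0] [Algebra.EssFiniteType ℂ K0] (n p : ℕ)
    (y : Fin (n + 1) → K0) (B : Place ℂ K0 → Prop) (hy : ∀ i, y i ≠ 0)
    (halg : ∀ z : K0, IsAlgebraic (IntermediateField.adjoin ℂ (Set.range fun i => y i / y 0)) z)
    (hgt : LogGeneralType ℂ K0 p (fun P => (∃ i, P.ord (y i) ≠ P.ord (y 0)) ∨ B P)) :
    ∃ μ : ℕ, ∀ (K : Type) [Field K] [Algebra ℂ K] [Algebra K0 K] [IsScalarTower ℂ K0 K]
      (N e : ℕ) (v : Fin (N + 1) → K), NormalModel v → Algebra.trdeg ℂ K = (p + e : ℕ) →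
      Canonical v (p + e) →
      (∀ P, IsPrimeDivisor v P →
        (∀ g : K0, P.ord (algebraMap K0 K g) = 0) ∨ Mult y B μ P 0) →
      ∀ (m s : Fin e → ℕ) (x z c : Fin e → K) (a : ∀ j, Fin (s j) → ℕ)
        (g : ∀ j, Fin (s j) → Polynomial (acl ℂ (img K0 K : Set K))),
      CycData (acl ℂ (img K0 K : Set K)) x z m s g a c →
      ((∃ j, wsum m s g a j < 2) → kodairaDim v (p + e) 0 = ⊥ ∧
        ∀ A, Effective v A → numericalDim v (p + e) 0 A = ⊥) ∧
      ((∀ j, 2 ≤ wsum m s g a j) →
        kodairaDim v (p + e) 0 =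
          ((p + (Finset.univ.filter fun j => 2 < wsum m s g a j).card : ℕ) : WithBot ℕ) ∧
        ∀ A, Effective v A → Integral v A → numericalDim v (p + e) 0 A =
          ((p + (Finset.univ.filter fun j => 2 < wsum m s g a j).card : ℕ) : EReal)) := by
  classical
  obtain ⟨μ, hμ⟩ := fib_lgt K0 n p y B hy halg hgt
  refine ⟨μ, ?_⟩
  intro K _ _ _ _ N e v hv hn hcan hcond m s x z c a g hc
  obtain ⟨h1, h2⟩ := cyc_can hv hn hcan (acl_closed (img K0 K : Set K)) hc
  refine ⟨h1, fun hws => ?_⟩
  refine h2 _ hws ?_ ?_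
  · have h3 : (Finset.univ.filter fun j => 2 < wsum m s g a j).card +
        (Finset.univ.filter fun j => wsum m s g a j = 2).card = e := by
      rw [← Finset.card_union_of_disjoint, ← Finset.filter_or, Finset.filter_true_of_mem,
        Finset.card_univ, Fintype.card_fin]
      · intro j _
        rcases lt_or_eq_of_le (hws j) with h | h
        · exact Or.inl h
        · exact Or.inr h.symm
      · rw [Finset.disjoint_filter]
        intro j _ h4 h5
        rw [h5] at h4
        exact lt_irrefl _ h4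
    omega
  · let φ := (Finset.univ.filter fun j => 2 < wsum m s g a j).equivFin
    refine fib_pair hμ hn {P | IsPrimeDivisor v P} (fun _ => 0) (fun P _ => le_rfl) hcond
      (fun δ₂ h3 h4 => ?_)
    obtain ⟨M, hM, θ, hθ, hne⟩ := cyc_low (N := p + e) hc hws
      (κ := fun i => (φ.symm i : Fin e)) (fun a b hab => φ.symm.injective (Subtype.ext hab))
      (fun i => (Finset.mem_filter.1 (φ.symm i).2).2) {P | IsPrimeDivisor v P}
    refine ⟨M, hM, θ, fun b => ⟨(hθ b).1, fun P hP hPd G hG => ?_⟩, hne⟩
    rcases (hθ b).2 P hP hPd G hG with h5 | h5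
    · exact Or.inl h5
    · right
      refine le_trans ?_ h5
      rw [mul_zero, neg_zero, neg_nonpos]
      exact mul_nonneg (Nat.cast_nonneg _) (h3 P hP)

end Pool.Agent.V1157.KL
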