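import Pool.Agent.V1157.KL.KumEx

/-!
The Kodaira dimension and the numerical dimension of log canonical pairs over Kummer covers.
-/

set_option autoImplicit false

open FF Pool.Agent.W602.GT Pool.Agent.Y192.KC Pool.Agent.Y172 Pool.Agent.Y191

namespace Pool.Agent.V1157.KL

variable {n r : ℕ}

/-- there are at most `n` one-parameter groups which are independent modulo scalars -/
theorem not_torus (X : ZCov n r) : ¬ TorusActs X (n + 1) := by
  classical
  rintro ⟨l, -, h⟩
  -- a relation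
  let A : Matrix (Fin (n + 1)) (Option (Fin (n + 1))) ℤ :=
    Matrix.of fun j o => o.elim 1 fun i => l i j
  obtain ⟨v, hv0, hv, -⟩ := Int.Matrix.exists_ne_zero_int_vec_norm_le' A (by simp) (by
    rw [Fintype.card_fin]
    omega) (by
    intro h0
    have h1 := congrFun (congrFun h0 0) none
    exact one_ne_zero h1)
  have h1 : ∀ j, v none + ∑ i, v (some i) * l i j = 0 := by
    intro j
    have h2 := congrFun hv j
    simp only [Matrix.mulVec, dotProduct, Fintype.sum_option, A, Matrix.of_apply, Option.elim,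
      one_mul, Pi.zero_apply] at h2
    rw [← h2]
    congr 1
    exact Finset.sum_congr rfl fun i _ => mul_comm _ _
  have h2 := h (v none) (fun i => v (some i)) h1
  apply hv0
  funext o
  rcases o with _ | i
  · have h3 := h1 0
    simp only [h2, zero_mul, Finset.sum_const_zero, add_zero] at h3
    exact h3
  · exact h2 i

theorem torus_zero (X : ZCov n r) : TorusActs X 0 :=
  ⟨fun i => i.elim0, fun i => i.elim0, fun _ _ _ i => i.elim0⟩

/-- the rank of the torus -/
theorem exists_rank (X : ZCov n r) : ∃ k, TorusActs X k ∧ ¬ TorusActs X (k + 1) := by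
  by_contra hcon
  push Not at hcon
  have h1 : ∀ k, TorusActs X k := by
    intro k
    induction k with
    | zero => exact torus_zero X
    | succ k ih => exact hcon k ih
  exact not_torus X (h1 (n + 1))

theorem rank_le {X : ZCov n r} {k b : ℕ} (hk : ¬ TorusActs X (k + 1)) (hb : TorusActs X b) :
    b ≤ k := by
  by_contra hcon
  push Not at hcon
  exact hk (hb.mono hcon)

/-- **Weak abundance over the covers.** -/
theorem kum_final (X : ZCov n r) (hT : ¬ ZLim X) :
    ∃ k, TorusActs X k ∧ ¬ TorusActs X (k + 1) ∧ ∃ m0 : ℕ, ∀ m, m0 ≤ m → (∀ j, X.e j ∣ m) →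
      ∀ (L : Type) [Field L] [Algebra ℂ L] (t : Fin (n + 1) → L) (w : Fin r → L),
      ZField X m L t w → ∀ d : ℕ, Algebra.trdeg ℂ L = d →
      ∀ (N : ℕ) (y : Fin (N + 1) → L) (Δ : Place ℂ L → ℚ),
      NormalModel y → Effective y Δ → LogCanonical y d Δ →
      (∀ P, IsPrimeDivisor y P → OffG X.toCov m t P → 1 ≤ Δ P) →
      ∃ κ : ℕ, d ≤ κ + k ∧ (CanonicalOff y d Δ (OffG X.toCov m t) → d = κ + k) ∧
        kodairaDim y d Δ = (κ : WithBot ℕ) ∧
        ∀ A, Effective y A → Integral y A → numericalDim y d Δ A = (κ : EReal) := by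
  obtain ⟨k, hk, hk'⟩ := exists_rank X
  obtain ⟨m0, hm0⟩ := kum_core X hT
  refine ⟨k, hk, hk', max 1 m0, fun m hm he L _ _ t w hF d hd N y Δ hy hΔ hLC hO => ?_⟩
  have hmpos : 0 < m := lt_of_lt_of_le one_pos ((le_max_left _ _).trans hm)
  obtain ⟨q, b, hqb, hb, hq, h⟩ := hm0 m ((le_max_right _ _).trans hm) he L t w hF d hd
  obtain ⟨κ, h1, h2, h3, h4⟩ := h N y Δ hy hΔ hLC hO
  have h5 := rank_le hk' hb
  refine ⟨κ, by omega, fun hcan => ?_, h2, h3⟩
  have h6 := kod_le_torus hmpos he hF hd hk (kodGe_of_pair hy hd hLC hcan h4)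
  omega

/-- **The logarithmic Kodaira dimension of the covers.** -/
theorem kum_logkod (X : ZCov n r) :
    ∃ k, TorusActs X k ∧ ¬ TorusActs X (k + 1) ∧ ∃ m0 : ℕ, ∀ m, m0 ≤ m → (∀ j, X.e j ∣ m) →
      ∀ (L : Type) [Field L] [Algebra ℂ L] (t : Fin (n + 1) → L) (w : Fin r → L),
      ZField X m L t w → ∀ d : ℕ, Algebra.trdeg ℂ L = d →
      (ZLim X ∧ ¬ Psef ℂ L d (OffG X.toCov m t)) ∨
      (¬ ZLim X ∧ Psef ℂ L d (OffG X.toCov m t) ∧ ∃ κ : ℕ, κ + k = d ∧
        KodGe ℂ L d (OffG X.toCov m t) κ ∧ ¬ KodGe ℂ L d (OffG X.toCov m t) (κ + 1)) := by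
  obtain ⟨k, hk, hk'⟩ := exists_rank X
  refine ⟨k, hk, hk', ?_⟩
  by_cases hT : ZLim X
  · refine ⟨1, fun m hm he L _ _ t w hF d hd => Or.inl ⟨hT, not_psef_of_zlim hm he hT hF hd⟩⟩
  · obtain ⟨m0, hm0⟩ := kum_core X hT
    refine ⟨max 1 m0, fun m hm he L _ _ t w hF d hd => Or.inr ⟨hT, ?_⟩⟩
    have hmpos : 0 < m := lt_of_lt_of_le one_pos ((le_max_left _ _).trans hm)
    obtain ⟨q, b, hqb, hb, hq, -⟩ := hm0 m ((le_max_right _ _).trans hm) he L t w hF d hd
    have h5 := rank_le hk' hb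
    have h6 := kod_le_torus hmpos he hF hd hk hq
    refine ⟨psef_of_kodGe hq.zero, q, by omega, hq, fun h7 => ?_⟩
    have h8 := kod_le_torus hmpos he hF hd hk h7
    omega

end Pool.Agent.V1157.KL
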