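import Pool.Agent.Y484.KA.A1g
import Pool.Agent.W602.GT.KDefs

/-!
Logarithmic pluricanonical forms on ramified extensions of larger transcendence degree: the
logarithmic Kodaira dimension (the proof is that of `Pool.Agent.Y484.KA.t_a1g`).
-/

set_option autoImplicit false

open FF Pool.Agent.W602.GT Pool.Agent.W603.LV Pool.Agent.TH143.GT Pool.Agent.Y220.OG
open Pool.Agent.Y484.KA

namespace Pool.Agent.V1157.KL

/-- **Logarithmic pluricanonical forms** on ramified extensions of larger transcendence degree. -/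
theorem t_a1k (K : Type) [Field K] [Algebra ℂ K] [Algebra.EssFiniteType ℂ K] (n d q : ℕ)
    (y : Fin (n + 1) → K) (B : Place ℂ K → Prop) (hy : ∀ i, y i ≠ 0)
    (halg : ∀ z : K, IsAlgebraic (IntermediateField.adjoin ℂ (Set.range fun i => y i / y 0)) z)
    (hgt : LogGeneralType ℂ K d (fun P => (∃ i, P.ord (y i) ≠ P.ord (y 0)) ∨ B P)) :
    ∃ m : ℕ, ∀ (L : Type) [Field L] [Algebra ℂ L] [Algebra.EssFiniteType ℂ L] [Algebra K L]
      [IsScalarTower ℂ K L] (s : Fin q → L) (Bd : Place ℂ L → Prop),
      Algebra.trdeg ℂ L = (d + q : ℕ) → (∀ c, s c ≠ 0) → AlgebraicIndependent K s →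
      (∀ P : Place ℂ L, ¬ Bd P →
        ((∀ i, P.ord (algebraMap K L (y i)) = P.ord (algebraMap K L (y 0))) ∧
          (∀ (P0 : Place ℂ K) (e : ℕ), (∀ z : K, P.ord (algebraMap K L z) = e * P0.ord z) → B P0 →
            e ≠ 1) ∧ ∀ c, P.ord (s c) = 0) ∨
        ∃ i j, P.ord (algebraMap K L (y i)) + m ≤ P.ord (algebraMap K L (y j))) →
      KodGe ℂ L (d + q) Bd d := by
  classical
  obtain ⟨htr, N, hN, ω, hω, hlog, hreg, D0, hD0, hind⟩ := hgt
  -- a transcendence basis among the ratios
  obtain ⟨t, ht, hty⟩ : ∃ t : Fin d → K, IsTranscendenceBasis ℂ t ∧ ∀ b, ∃ i, t b = y i / y 0 := by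
    have h1 : Algebra.IsAlgebraic
        (IntermediateField.adjoin ℂ (Set.range fun i => y i / y 0)) K := ⟨halg⟩
    have h2 := alg_adjoin h1
    obtain ⟨B, hB, hBb⟩ := exists_isTranscendenceBasis_subset (R := ℂ) (A := K)
      (Set.range fun i => y i / y 0)
    have hcard := hBb.cardinalMk_eq_trdeg
    rw [htr] at hcard
    obtain ⟨φ⟩ : Nonempty (Fin d ≃ B) := by
      rw [← Cardinal.eq, Cardinal.mk_fin]
      exact hcard.symm
    refine ⟨fun i => (φ i : K), hBb.comp_equiv φ, fun b => ?_⟩
    obtain ⟨i, hi⟩ := hB (φ b).2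
    exact ⟨i, hi.symm⟩
  choose Et hEt using fun i => exists_der t ht (fun j => if i = j then (1 : K) else 0)
  have hdual : Dual t Et := ⟨ht, hEt⟩
  set f : Fin (d + 1) → K := fun j => ω j Et with hf
  have hωf : ∀ j, ω j = fun D => jac t D ^ N * f j := by
    intro j
    funext D
    have h1 := hω j (Matrix.of fun i j => D i (t j)) Et
    have h2 : (fun i => ∑ j, (Matrix.of fun i j => D i (t j)) i j • Et j) = D := by
      funext i
      exact (hdual.expand (D i)).symm
    rw [h2] at h1
    exact h1
  have hf0 : f 0 ≠ 0 := by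
    intro h0
    apply hD0
    rw [hωf 0]
    simp only [h0, mul_zero]
  have hJ0 : jac t D0 ^ N ≠ 0 := by
    intro h0
    apply hD0
    rw [hωf 0]
    simp only [h0, zero_mul]
  have hratio : (fun i : Fin d => ω i.succ D0 / ω 0 D0) = fun i : Fin d => f i.succ / f 0 := by
    funext i
    rw [hωf 0, hωf i.succ]
    simp only
    rw [mul_div_mul_left _ _ hJ0]
  rw [hratio] at hind
  have hbasis : IsTranscendenceBasis ℂ (fun i : Fin d => f i.succ / f 0) := by
    refine hind.isTranscendenceBasis_of_lift_trdeg_le_of_finite ?_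
    rw [htr]
    simp
  have halg2 : Algebra.IsAlgebraic
      (IntermediateField.adjoin ℂ (Set.range fun i : Fin d => f i.succ / f 0)) K :=
    hbasis.isAlgebraic_field
  obtain ⟨a, η, hη0, hη⟩ := rel_all (k := ℂ) hf0 (fun i => y i / y 0)
    (fun i => div_ne_zero (hy i) (hy 0)) (fun i => halg2.isAlgebraic _)
  set W : ℕ := 2 * (N + N * a) with hW
  refine ⟨2 * W * (1 + q), ?_⟩
  intro L _ _ _ _ _ s Bd hLtr hs hsi hBd
  have ht0 : ∀ b, t b ≠ 0 := by
    intro b
    obtain ⟨i, hi⟩ := hty b
    rw [hi]
    exact div_ne_zero (hy i) (hy 0)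
  have hloc := fun (P : Place ℂ L) (hP : Divisorial (d + q) P) (j : Fin (d + 1)) =>
    a1_local y B hy htr hN
    f t ht hty (fun v hv j => by
      have := hlog v hv j
      rwa [hωf j] at this) (fun v hv hb j => by
      have := hreg v hv hb j
      rwa [hωf j] at this) a η hη L s hs hLtr P hP j W hW
  have hτ0 : ((∏ b, t b)⁻¹) ^ (N + N * a) ≠ 0 :=
    pow_ne_zero _ (inv_ne_zero (Finset.prod_ne_zero_iff.2 fun b _ => ht0 b))
  have hWpos : 1 ≤ W := by
    rw [hW]
    have : 0 < 2 * (N + N * a) := by positivity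
    omega
  -- a basis
  have hsum : AlgebraicIndependent ℂ (Sum.elim s (algebraMap K L ∘ t)) := ht.1.sumElim_comp hsi
  set u : Fin (d + q) → L := Fin.append (fun b => algebraMap K L (t b)) s with hu
  have hui : AlgebraicIndependent ℂ u := by
    have h1 : u = (Sum.elim s (algebraMap K L ∘ t)) ∘
        (fun i : Fin (d + q) => Sum.swap (finSumFinEquiv.symm i)) := by
      funext i
      refine Fin.addCases (fun b => ?_) (fun c => ?_) i
      · simp only [hu, Fin.append_left, Function.comp, finSumFinEquiv_symm_apply_castAdd,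
          Sum.swap_inl, Sum.elim_inr]
      · simp only [hu, Fin.append_right, Function.comp, finSumFinEquiv_symm_apply_natAdd,
          Sum.swap_inr, Sum.elim_inl]
    rw [h1]
    apply hsum.comp
    intro i j hij
    have h2 := Sum.swap_leftInverse.injective hij
    exact finSumFinEquiv.symm.injective h2
  have hub : IsTranscendenceBasis ℂ u := by
    refine hui.isTranscendenceBasis_of_lift_trdeg_le_of_finite ?_
    rw [hLtr]
    simp
  choose EL hEL using fun i : Fin (d + q) => exists_der u hub
    (fun j => if i = j then (Fin.append (fun _ => (1 : L)) s : Fin (d + q) → L) j else 0)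
  have hTh : Th t s EL = 1 := by
    unfold Th
    have h2 : (Matrix.of fun i j => colv t s (EL i) j) =
        (1 : Matrix (Fin (d + q)) (Fin (d + q)) L) := by
      ext i j
      rw [Matrix.of_apply, Matrix.one_apply]
      have h3 := hEL i j
      unfold colv
      revert h3
      refine Fin.addCases (fun b => ?_) (fun c => ?_) j
      · intro h3
        simp only [hu, Fin.append_left] at h3 ⊢
        exact h3
      · intro h3
        simp only [hu, Fin.append_right] at h3 ⊢
        rw [h3]
        split_ifs with hij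
        · exact div_self (hs c)
        · exact zero_div _
    rw [h2, Matrix.det_one]
  -- the forms
  have hc : ∀ j, algebraMap K L (f j * ((∏ b, t b)⁻¹) ^ (N + N * a) * η) * Th t s EL ^ W =
      algebraMap K L (f j * ((∏ b, t b)⁻¹) ^ (N + N * a) * η) := by
    intro j
    rw [hTh, one_pow, mul_one]
  refine ⟨W, hWpos, fun j D => algebraMap K L (f j * ((∏ b, t b)⁻¹) ^ (N + N * a) * η) *
      Th t s D ^ W, fun j => ⟨?_, ?_, ?_⟩, EL, ?_, ?_⟩
  · intro A D
    simp only
    rw [Th_smul, mul_pow]
    ring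
  · intro P hP D hD
    exact (hloc P hP j D).1 hD
  · intro P hP hB D hD
    exact (hloc P hP j D).2 hD (hBd P hB)
  · beta_reduce
    rw [hc]
    exact (map_ne_zero _).2 (mul_ne_zero (mul_ne_zero hf0 hτ0) hη0)
  · have e1 : (fun i : Fin d => (fun j D => algebraMap K L
        (f j * ((∏ b, t b)⁻¹) ^ (N + N * a) * η) * Th t s D ^ W :
          Fin (d + 1) → (Fin (d + q) → Derivation ℂ L L) → L) i.succ EL /
        (fun j D => algebraMap K L (f j * ((∏ b, t b)⁻¹) ^ (N + N * a) * η) * Th t s D ^ W :
          Fin (d + 1) → (Fin (d + q) → Derivation ℂ L L) → L) 0 EL) =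
        (IsScalarTower.toAlgHom ℂ K L) ∘ (fun i : Fin d => f i.succ / f 0) := by
      funext i
      simp only
      rw [hc, hc, ← map_div₀, mul_div_mul_right _ _ hη0, mul_div_mul_right _ _ hτ0]
      rfl
    rw [e1]
    exact hind.map' (f := IsScalarTower.toAlgHom ℂ K L) (algebraMap K L).injective

end Pool.Agent.V1157.KL
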