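import Pool.Agent.V1157.KL.Tor
import Pool.Agent.Y192.KC.LPsef

/-!
The logarithmic Kodaira dimension of Kummer covers: upper bounds.
-/

set_option autoImplicit false
set_option linter.unusedVariables false
set_option linter.unusedSectionVars false

open MvPolynomial FF Pool.Agent.W602.GT IntermediateField Pool.Agent.Y192.KC Pool.Agent.Y270.KC
open Pool.Agent.Y108.KC Pool.Agent.Y721.KZ

namespace Pool.Agent.V1157.KL

variable {n r : ℕ} {X : ZCov n r} {m : ℕ} {L : Type} [Field L] [Algebra ℂ L]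
  {t : Fin (n + 1) → L} {w : Fin r → L}

/-- the derivation which is given by a one-parameter group -/
theorem pcore (hm : 0 < m) (hem : ∀ j, X.e j ∣ m) (hF : ZField X m L t w)
    (l : Fin (n + 1) → ℤ) (hl : ∃ i j, l i ≠ l j) (hPres : Pres X l) :
    ∃ (δ : Derivation ℂ L L) (σ : L) (g : ℤ), σ ≠ 0 ∧ δ σ = σ ∧ (consts δ)⟮σ⟯ = ⊤ ∧ g ≠ 0 ∧
      (∀ i, (g : L) * δ (t i / t 0) = ((l i - l 0 : ℤ) : L) * (t i / t 0)) ∧
      ∀ P : Place ℂ L, (∀ c, δ c = 0 → c ≠ 0 → P.ord c = 0) → P.ord σ = 0 →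
        ¬ OffG X.toCov m t P := by
  obtain ⟨hI, ⟨kG, hkG⟩, hH⟩ := hPres
  choose Dn H B S hDI hHI hBI hSI hDhom hHhom haD haH haB haS hFS using hH
  choose kD hkD using hDhom
  choose kH hkH using hHhom
  choose aD haD using haD
  choose aH haH using haH
  choose aB haB using haB
  choose aS haS using haS
  classical
  have hchar := charL (L := L)
  have ne := t_ne hm hF 0
  set z : Fin (n + 1) → L := fun i => t i / t 0 with hz
  have hzne : ∀ i, z i ≠ 0 := fun i => div_ne_zero (t_ne hm hF i) ne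
  have htz : ∀ i, t i = t 0 * z i := fun i => by rw [hz]; field_simp
  set ρ' : Fin r → L := fun j => w j / t 0 ^ X.wt m j with hρ'
  have hwt : ∀ j, X.wt m j * X.e j = m * X.d j := fun j =>
    Nat.div_mul_cancel ((hem j).mul_right _)
  have hρe : ∀ j, ρ' j ^ X.e j = aeval (fun i => z i ^ m) (X.F j) := by
    intro j
    rw [hρ']
    simp only
    rw [div_pow, ← pow_mul, hwt, hF.eqn, ev_div hm hF (X.hF j), ← pow_mul]
    have : t 0 ^ (m * X.d j) ≠ 0 := pow_ne_zero _ ne
    exact mul_div_cancel_left₀ _ this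
  have hFz : ∀ j, aeval (fun i => z i ^ m) (X.F j) ≠ 0 := fun j =>
    ev_div_ne hm hF (X.hF j) (X.hFI j)
  have hGz : aeval (fun i => z i ^ m) X.G ≠ 0 := ev_div_ne hm hF X.hG X.hGI
  have hHz : ∀ j, aeval (fun i => z i ^ m) (H j) ≠ 0 := fun j => ev_div_ne hm hF (haH j) (hHI j)
  have hDz0 : ∀ j, aeval (fun i => z i ^ m) (Dn j) ≠ 0 := fun j =>
    ev_div_ne hm hF (haD j) (hDI j)
  have hBz : ∀ j, aeval (fun i => z i ^ m) (B j) ≠ 0 := fun j => ev_div_ne hm hF (haB j) (hBI j)
  have hSz : ∀ j, aeval (fun i => z i ^ m) (S j) ≠ 0 := fun j => ev_div_ne hm hF (haS j) (hSI j)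
  obtain ⟨D, hDz⟩ := field_der hm hF hI
  have hDzm : ∀ i, Eig D (m * (l i - l 0)) (z i ^ m) := fun i => (hDz i).pow m
  have hDA : ∀ (A : MvPolynomial (Fin (n + 1)) ℂ) (kA : ℤ) (dA : ℕ), A.IsHomogeneous dA →
      (∀ c ∈ A.support, ∑ i, l i * c i = kA) →
      Eig D (m * (kA - l 0 * dA)) (aeval (fun i => z i ^ m) A) := by
    intro A kA dA hA hkA
    refine Eig.aeval hDzm fun c hc => ?_
    have h1 := hkA c hc
    have h2 := sum_of_hom hA hc
    have h3 : ∑ i, (c i : ℤ) = dA := by exact_mod_cast h2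
    calc ∑ i, m * (l i - l 0) * (c i : ℤ)
        = m * (∑ i, l i * c i - l 0 * ∑ i, (c i : ℤ)) := by
          rw [Finset.mul_sum, ← Finset.sum_sub_distrib, Finset.mul_sum]
          exact Finset.sum_congr rfl fun i _ => by ring
      _ = _ := by rw [h1, h3]
  -- the functions `w'`
  set w' : Fin r → L := fun j => ρ' j * aeval (fun i => z i ^ m) (B j) /
    aeval (fun i => z i ^ m) (S j) with hw'
  have hFHS : ∀ j, aeval (fun i => z i ^ m) (Dn j) * aeval (fun i => z i ^ m) (B j) ^ X.e j *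
      aeval (fun i => z i ^ m) (X.F j) =
      aeval (fun i => z i ^ m) (H j) * aeval (fun i => z i ^ m) (S j) ^ X.e j := by
    intro j
    have h1 := ev_div_mem hm hF (hFS j)
    rw [map_sub, map_mul, map_mul, map_mul, map_pow, map_pow, sub_eq_zero] at h1
    exact h1
  have hw'e : ∀ j, w' j ^ X.e j =
      aeval (fun i => z i ^ m) (H j) * (aeval (fun i => z i ^ m) (Dn j))⁻¹ := by
    intro j
    rw [hw']
    simp only
    rw [div_pow, mul_pow, hρe, ← div_eq_mul_inv, div_eq_div_iff (pow_ne_zero _ (hSz j)) (hDz0 j),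
      ← hFHS j]
    ring
  have hw'0 : ∀ j, w' j ≠ 0 := fun j h => mul_ne_zero (hHz j) (inv_ne_zero (hDz0 j))
    (by rw [← hw'e, h, zero_pow (X.he j).ne'])
  set cj : Fin r → ℤ := fun j => ((m / X.e j : ℕ) : ℤ) *
    ((kH j - l 0 * aH j) - (kD j - l 0 * aD j)) with hcj
  have hDw : ∀ j, Eig D (cj j) (w' j) := by
    intro j
    refine Eig.root (hw'0 j) (X.he j) ?_
    rw [hw'e]
    have h1 : (X.e j : ℤ) * cj j = m * (kH j - l 0 * aH j) + -(m * (kD j - l 0 * aD j)) := by
      have h2 : ((m / X.e j : ℕ) : ℤ) * X.e j = m := by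
        exact_mod_cast Nat.div_mul_cancel (hem j)
      rw [hcj]
      simp only
      rw [← mul_assoc, mul_comm (X.e j : ℤ), h2]
      ring
    rw [h1]
    exact (hDA _ _ _ (haH j) (hkH j)).mul (hDA _ _ _ (haD j) (hkD j)).inv
  -- all generators and their weights
  set ρ : Fin (n + 1) ⊕ Fin r → L := Sum.elim z w' with hρ
  set a : Fin (n + 1) ⊕ Fin r → ℤ := Sum.elim (fun i => l i - l 0) cj with ha
  have hρ0 : ∀ x, ρ x ≠ 0 := by
    rintro (i | j)
    · exact hzne i
    · exact hw'0 j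
  have hDρ : ∀ x, Eig D (a x) (ρ x) := by
    rintro (i | j)
    · exact hDz i
    · exact hDw j
  obtain ⟨g, hg⟩ : ∃ g : ℤ, Ideal.span (Set.range a) = Ideal.span {g} :=
    (IsPrincipalIdealRing.principal (Ideal.span (Set.range a))).principal
  have hdvd : ∀ x, g ∣ a x := by
    intro x
    rw [← Ideal.mem_span_singleton, ← hg]
    exact Ideal.subset_span ⟨x, rfl⟩
  have hg0 : g ≠ 0 := by
    rintro rfl
    obtain ⟨i, j, hij⟩ := hl
    have h1 := hdvd (Sum.inl i)
    have h2 := hdvd (Sum.inl j)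
    rw [zero_dvd_iff] at h1 h2
    change l i - l 0 = 0 at h1
    change l j - l 0 = 0 at h2
    omega
  obtain ⟨b, hb⟩ : ∃ b : Fin (n + 1) ⊕ Fin r → ℤ, ∑ x, b x * a x = g := by
    have h1 : g ∈ Ideal.span (Set.range a) := by
      rw [hg]; exact Ideal.mem_span_singleton_self g
    obtain ⟨b, hb⟩ := (Submodule.mem_span_range_iff_exists_fun ℤ).1 h1
    exact ⟨b, hb⟩
  choose β hβ using hdvd
  set σ : L := ∏ x, ρ x ^ b x with hσ
  have hσ0 : σ ≠ 0 := Finset.prod_ne_zero_iff.2 fun x _ => zpow_ne_zero _ (hρ0 x)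
  have hDσ : Eig D g σ := by
    rw [← hb]
    exact Eig.prod _ _ _ fun x _ => (hDρ x).zpow (b x)
  have hgL : (g : L) ≠ 0 := by exact_mod_cast hg0
  set δ : Derivation ℂ L L := ((g : ℂ)⁻¹) • D with hδ
  have hδD : ∀ f, δ f = (g : L)⁻¹ * D f := by
    intro f
    rw [hδ, Derivation.smul_apply, Algebra.smul_def]
    simp
  have hδσ : δ σ = σ := by
    rw [hδD, show D σ = (g : L) * σ from hDσ]
    field_simp
  have hδ0 : ∀ f, Eig D 0 f → δ f = 0 := by
    intro f hf
    rw [hδD, show D f = ((0 : ℤ) : L) * f from hf]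
    simp
  -- eigenvectors of weight `β * g`
  have hquot : ∀ (f : L) (k : ℤ), Eig D (g * k) f → δ (f / σ ^ k) = 0 := by
    intro f k hf
    apply hδ0
    rw [div_eq_mul_inv]
    have h1 := hf.mul (hDσ.zpow k).inv
    have h2 : g * k + -(k * g) = 0 := by ring
    rwa [h2] at h1
  refine ⟨δ, σ, g, hσ0, hδσ, ?_, hg0, ?_, ?_⟩
  · -- generation
    have hmem : ∀ (f : L) (k : ℤ), Eig D (g * k) f → f ∈ (consts δ)⟮σ⟯ := by
      intro f k hf
      have h1 : f = (f / σ ^ k) * σ ^ k := by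
        have : σ ^ k ≠ 0 := zpow_ne_zero _ hσ0
        field_simp
      rw [h1]
      refine mul_mem ?_ (zpow_mem (IntermediateField.mem_adjoin_simple_self _ _) _)
      exact (consts δ)⟮σ⟯.algebraMap_mem (⟨f / σ ^ k, hquot f k hf⟩ : consts δ)
    have hρm : ∀ x, ρ x ∈ (consts δ)⟮σ⟯ := fun x => hmem _ (β x) (by rw [← hβ]; exact hDρ x)
    have hle : (⊤ : IntermediateField ℂ L) ≤ ((consts δ)⟮σ⟯).restrictScalars ℂ := by
      rw [← hF.gen, IntermediateField.adjoin_le_iff]
      rintro _ (⟨i, rfl⟩ | ⟨j, rfl⟩)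
      · exact hρm (Sum.inl i)
      · change ρ' j ∈ (consts δ)⟮σ⟯
        have h1 : ρ' j = w' j * aeval (fun i => z i ^ m) (S j) /
            aeval (fun i => z i ^ m) (B j) := by
          rw [hw']
          simp only
          rw [div_mul_cancel₀ _ (hSz j), mul_div_cancel_right₀ _ (hBz j)]
        have hAm : ∀ A : MvPolynomial (Fin (n + 1)) ℂ,
            aeval (fun i => z i ^ m) A ∈ (consts δ)⟮σ⟯ := by
          intro A
          rw [aeval_def, eval₂_eq']
          refine sum_mem fun c _ => mul_mem ?_ (prod_mem fun i _ =>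
            pow_mem (pow_mem (hρm (Sum.inl i)) _) _)
          exact (((consts δ)⟮σ⟯).restrictScalars ℂ).algebraMap_mem _
        rw [h1]
        exact div_mem (mul_mem (hρm (Sum.inr j)) (hAm _)) (hAm _)
    rw [eq_top_iff]
    intro x _
    exact hle (IntermediateField.mem_top (x := x))
  · -- the coordinates
    intro i
    rw [hδD, show D (t i / t 0) = ((l i - l 0 : ℤ) : L) * (t i / t 0) from hDz i]
    field_simp
  · -- places
    intro P hP hPσ hoff
    have hord : ∀ (f : L) (k : ℤ), f ≠ 0 → Eig D (g * k) f → P.ord f = 0 := by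
      intro f k hf0 hf
      have hs : σ ^ k ≠ 0 := zpow_ne_zero _ hσ0
      have h1 := hP _ (hquot f k hf) (div_ne_zero hf0 hs)
      rw [P.ord_div hf0 hs, P.ord_zpow, hPσ] at h1
      omega
    have hti : ∀ i, P.ord (t i) = P.ord (t 0) := by
      intro i
      have h1 := hord (z i) (β (Sum.inl i)) (hzne i) (by rw [← hβ]; exact hDz i)
      rw [htz i, P.ord_mul ne (hzne i), h1, add_zero]
    have hfin : P.ord (aeval (fun i => t i ^ m) X.G) = m * X.q * P.ord (t 0) := ?_
    · have := hoff (P.ord (t 0)) (fun i => (hti i).ge) ⟨0, rfl⟩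
      rw [hfin] at this
      exact lt_irrefl _ this
    have hGw : aeval (fun i => z i ^ m) X.G = aeval (fun i => z i ^ m) (wp l kG X.G) := by
      have h1 := ev_div_mem hm hF hkG
      rw [map_sub, sub_eq_zero] at h1
      exact h1
    have h1 := hDA (wp l kG X.G) kG X.q (wp_isHom X.hG) (wp_hom l kG X.G)
    rw [← hGw] at h1
    have hwG0 : wp l kG X.G ≠ 0 := by
      intro h
      rw [h, map_zero] at hGw
      exact hGz hGw
    obtain ⟨c, hc⟩ := MvPolynomial.ne_zero_iff.1 hwG0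
    have hcs : c ∈ (wp l kG X.G).support := mem_support_iff.2 hc
    have h2 : g ∣ m * (kG - l 0 * X.q) := by
      refine Dvd.dvd.mul_left ?_ _
      have h3 : kG - l 0 * X.q = ∑ i, (l i - l 0) * (c i : ℤ) := by
        have h4 : ∑ i, (c i : ℤ) = X.q := by exact_mod_cast sum_of_hom (wp_isHom X.hG) hcs
        rw [← wp_hom l kG X.G c hcs, ← h4, Finset.mul_sum, ← Finset.sum_sub_distrib]
        exact Finset.sum_congr rfl fun i _ => by ring
      rw [h3]
      refine Finset.dvd_sum fun i _ => Dvd.dvd.mul_right ?_ _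
      exact ⟨β (Sum.inl i), hβ (Sum.inl i)⟩
    obtain ⟨k, hk⟩ := h2
    rw [hk] at h1
    have h3 := hord _ k hGz h1
    rw [ev_div hm hF X.hG, P.ord_mul (pow_ne_zero _ (pow_ne_zero _ ne)) hGz, h3, P.ord_pow,
      P.ord_pow]
    ring


/-- the sections have constant ratios -/
theorem ratio_sec {K : Type} [Field K] [Algebra ℂ K] {w : ℕ}
    (htr : Algebra.trdeg ℂ K = w) {Bd : Place ℂ K → Prop} (δ : Derivation ℂ K K) {σ : K}
    (hσ0 : σ ≠ 0) (hσ : δ σ = σ) (htop : (consts δ)⟮σ⟯ = ⊤)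
    (hBd : ∀ P : Place ℂ K, (∀ c : K, δ c = 0 → c ≠ 0 → P.ord c = 0) → P.ord σ = 0 → ¬ Bd P)
    (N : ℕ) (ω ω' : (Fin w → Derivation ℂ K K) → K) (hω : LogSec ℂ K w N Bd ω)
    (hω' : LogSec ℂ K w N Bd ω') (D' : Fin w → Derivation ℂ K K) (hne : ω' D' ≠ 0) :
    δ (ω D' / ω' D') = 0 := by
  obtain ⟨D, hD, hconst, -⟩ := sec_const htr (Bd := Bd) δ hσ0 hσ htop hBd
  obtain ⟨M, hM⟩ := hD D'
  have h1 : ω D' = M.det ^ N * ω D := by rw [← hM, hω.1]
  have h2 : ω' D' = M.det ^ N * ω' D := by rw [← hM, hω'.1]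
  have h3 : M.det ^ N ≠ 0 := by
    intro h0
    apply hne
    rw [h2, h0, zero_mul]
  have h4 : ω D ∈ consts δ := hconst N ω hω
  have h5 : ω' D ∈ consts δ := hconst N ω' hω'
  have h6 : ω D' / ω' D' ∈ consts δ := by
    rw [h1, h2, mul_div_mul_left _ _ h3]
    exact div_mem h4 h5
  exact h6

/-- **Upper bounds** from linearly independent derivations. -/
theorem kod_le3 {K : Type} [Field K] [Algebra ℂ K] {w : ℕ}
    (htr : Algebra.trdeg ℂ K = w) {Bd : Place ℂ K → Prop} {p : ℕ} (δ : Fin p → Derivation ℂ K K)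
    (hδ1 : ∀ l N (ω ω' : (Fin w → Derivation ℂ K K) → K), LogSec ℂ K w N Bd ω →
        LogSec ℂ K w N Bd ω' → ∀ D', ω' D' ≠ 0 → δ l (ω D' / ω' D') = 0)
    (hδ2 : ∀ c : Fin p → K, (∀ z, ∑ l, c l * δ l z = 0) → c = 0) {h : ℕ}
    (hk : KodGe ℂ K w Bd h) : h + p ≤ w := by
  classical
  have hK : CharZero K := charZero_of_injective_algebraMap (algebraMap ℂ K).injective
  obtain ⟨N, hN, ω, hω, D', hD', hind⟩ := hk
  have hf : ∀ l (i : Fin h), δ l (ω i.succ D' / ω 0 D') = 0 := fun l i =>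
    hδ1 l N _ _ (hω _) (hω _) D' hD'
  -- extend the ratios to a transcendence basis
  have hindr : AlgebraicIndepOn ℂ id (Set.range fun i : Fin h => ω i.succ D' / ω 0 D') :=
    hind.coe_range
  obtain ⟨B, hB1, hB⟩ := exists_isTranscendenceBasis_superset hindr
  have hcard : Cardinal.mk B = (w : Cardinal) := by
    rw [← htr]
    exact hB.cardinalMk_eq_trdeg
  have hfinB : B.Finite := by
    rw [← Set.finite_coe_iff, ← Cardinal.lt_aleph0_iff_finite, hcard]
    exact Cardinal.natCast_lt_aleph0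
  set R := Set.range fun i : Fin h => ω i.succ D' / ω 0 D' with hR
  have hfin2 : Finite (B \ R : Set K) := (hfinB.subset Set.sdiff_subset).to_subtype
  obtain ⟨q, ⟨ψ⟩⟩ := Finite.exists_equiv_fin (B \ R : Set K)
  have hq : h + q = w := by
    have e1 : R ≃ Fin h := (Equiv.ofInjective _ hind.injective).symm
    have h1 := Cardinal.mk_congr (Equiv.Set.sumDiffSubset hB1)
    rw [hcard, Cardinal.mk_sum, Cardinal.mk_congr e1, Cardinal.mk_congr ψ] at h1
    simp only [Cardinal.mk_fin, Cardinal.lift_natCast] at h1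
    exact_mod_cast h1
  by_contra hcon
  push Not at hcon
  have hqp : q < p := by omega
  let L : (Fin p → K) →ₗ[K] (Fin q → K) :=
    { toFun := fun c i => ∑ l, c l * δ l ((ψ.symm i : (B \ R : Set K)) : K)
      map_add' := by
        intro c c'
        funext i
        simp only [Pi.add_apply, add_mul, Finset.sum_add_distrib]
      map_smul' := by
        intro a c
        funext i
        simp only [Pi.smul_apply, smul_eq_mul, RingHom.id_apply, mul_assoc, Finset.mul_sum] }
  have hker : LinearMap.ker L ≠ ⊥ := LinearMap.ker_ne_bot_of_finrank_lt (by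
    rw [Module.finrank_fin_fun, Module.finrank_fin_fun]
    exact hqp)
  obtain ⟨c, hc, hc0⟩ := Submodule.exists_mem_ne_zero_of_ne_bot hker
  have hLc : L c = 0 := hc
  let D : Derivation ℂ K K := ∑ l, c l • δ l
  have hDval : ∀ z, D z = ∑ l, c l * δ l z := by
    intro z
    have h0 : ∀ (s : Finset (Fin p)), (∑ l ∈ s, c l • δ l) z = ∑ l ∈ s, c l * δ l z := by
      intro s
      induction s using Finset.induction_on with
      | empty => simp
      | insert l s hl ih =>
        rw [Finset.sum_insert hl, Finset.sum_insert hl, Derivation.add_apply, ih]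
        rfl
    exact h0 _
  have hD0 : D = 0 := by
    apply der_ext _ hB
    intro z
    rw [Derivation.zero_apply]
    by_cases hz : (z : K) ∈ R
    · obtain ⟨i, hi⟩ := hz
      rw [← hi, hDval]
      exact Finset.sum_eq_zero fun l _ => by rw [hf l i, mul_zero]
    · have h1 := congrFun hLc (ψ ⟨z, z.2, hz⟩)
      change ∑ l, c l * δ l ((ψ.symm (ψ ⟨z, z.2, hz⟩) : (B \ R : Set K)) : K) = 0 at h1
      rw [Equiv.symm_apply_apply] at h1
      rw [hDval]
      exact h1
  apply hc0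
  apply hδ2
  intro z
  rw [← hDval, hD0, Derivation.zero_apply]

/-- integral vectors which are independent over the integers are independent over a field of
characteristic zero -/
theorem int_indep {p n : ℕ} {K : Type} [Field K] [CharZero K] (v : Fin p → Fin n → ℤ)
    (hv : ∀ a : Fin p → ℤ, (∀ j, ∑ i, a i * v i j = 0) → ∀ i, a i = 0) (c : Fin p → K)
    (hc : ∀ j, ∑ i, c i * (v i j : K) = 0) : ∀ i, c i = 0 := by
  classical
  intro i0
  by_contra hne
  have h1 : ¬ ∀ φ : Module.Dual ℚ K, φ (c i0) = 0 := fun h =>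
    hne ((Module.forall_dual_apply_eq_zero_iff ℚ (c i0)).1 h)
  push Not at h1
  obtain ⟨φ, hφ⟩ := h1
  -- a common denominator
  obtain ⟨N, hN0, b, hb⟩ : ∃ N : ℤ, N ≠ 0 ∧ ∃ b : Fin p → ℤ, ∀ i, (b i : ℚ) = N * φ (c i) := by
    refine ⟨∏ i, ((φ (c i)).den : ℤ), Finset.prod_ne_zero_iff.2 fun i _ => by
      exact_mod_cast (φ (c i)).den_nz, fun i => (∏ j ∈ Finset.univ.erase i, ((φ (c j)).den : ℤ)) *
        (φ (c i)).num, fun i => ?_⟩
    rw [← Finset.mul_prod_erase Finset.univ _ (Finset.mem_univ i)]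
    push_cast
    have h2 : ((φ (c i)).den : ℚ) * φ (c i) = (φ (c i)).num := by
      rw [mul_comm]
      exact Rat.mul_den_eq_num _
    rw [mul_assoc, mul_comm _ (φ (c i)), ← mul_assoc, h2, mul_comm]
  have h2 := hv b (fun j => by
    have h3 : ∑ i, φ (c i) * (v i j : ℚ) = 0 := by
      have h4 := congrArg φ (hc j)
      rw [map_zero, map_sum] at h4
      rw [← h4]
      refine Finset.sum_congr rfl fun i _ => ?_
      have h5 : c i * (v i j : K) = (v i j : ℚ) • c i := by
        rw [Algebra.smul_def]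
        simp [mul_comm]
      rw [h5, map_smul, smul_eq_mul, mul_comm]
    have h6 : ((∑ i, b i * v i j : ℤ) : ℚ) = 0 := by
      push_cast
      have h7 : ∑ i, (b i : ℚ) * (v i j : ℚ) = N * ∑ i, φ (c i) * (v i j : ℚ) := by
        rw [Finset.mul_sum]
        exact Finset.sum_congr rfl fun i _ => by rw [hb, mul_assoc]
      rw [h7, h3, mul_zero]
    exact_mod_cast h6) i0
  have h3 := hb i0
  rw [h2, Int.cast_zero] at h3
  have h4 : (N : ℚ) ≠ 0 := by exact_mod_cast hN0
  exact hφ ((mul_eq_zero.1 h3.symm).resolve_left h4)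

/-- **The upper bound.** -/
theorem kod_le_torus (hm : 0 < m) (hem : ∀ j, X.e j ∣ m) (hF : ZField X m L t w) {d : ℕ}
    (hd : Algebra.trdeg ℂ L = d) {k : ℕ} (hT : TorusActs X k) {h : ℕ}
    (hk : KodGe ℂ L d (OffG X.toCov m t) h) : h + k ≤ d := by
  classical
  have hchar := charL (L := L)
  obtain ⟨l, hl, hind⟩ := hT
  have hne : ∀ i, ∃ j j', l i j ≠ l i j' := by
    intro i
    by_contra hcon
    push Not at hcon
    have h1 := hind (-(l i 0)) (Pi.single i 1) (fun j => by
      rw [Finset.sum_eq_single i]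
      · rw [Pi.single_eq_same, one_mul, hcon j 0]
        ring
      · intro b _ hb
        rw [Pi.single_eq_of_ne hb, zero_mul]
      · intro h
        exact absurd (Finset.mem_univ i) h) i
    rw [Pi.single_eq_same] at h1
    exact one_ne_zero h1
  choose δ σ g h1 h2 h3 h4 h5 h6 using fun i => pcore hm hem hF (l i) (hne i) (hl i)
  refine kod_le3 hd δ (fun i N ω ω' hω hω' D' hD' => ratio_sec hd (δ i) (h1 i)
    (h2 i) (h3 i) (h6 i) N ω ω' hω hω' D' hD') (fun c hc => ?_) hk
  have h7 := int_indep (K := L) (fun i j => l i j - l i 0) (by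
    intro a ha i
    refine hind (-∑ i, a i * l i 0) a (fun j => ?_) i
    have h8 := ha j
    simp only [mul_sub, Finset.sum_sub_distrib] at h8
    linarith) (fun i => c i * (g i : L)⁻¹) (by
    intro j
    have hz : t j / t 0 ≠ 0 := div_ne_zero (t_ne hm hF j) (t_ne hm hF 0)
    apply mul_right_cancel₀ hz
    rw [zero_mul, Finset.sum_mul, ← hc (t j / t 0)]
    refine Finset.sum_congr rfl fun i _ => ?_
    have hg : (g i : L) ≠ 0 := by exact_mod_cast h4 i
    have h8 := h5 i j
    have h9 : δ i (t j / t 0) = (g i : L)⁻¹ * (((l i j - l i 0 : ℤ) : L) * (t j / t 0)) := by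
      rw [← h8]
      field_simp
    rw [h9]
    ring)
  funext i
  have hg : (g i : L) ≠ 0 := by exact_mod_cast h4 i
  exact (mul_eq_zero.1 (h7 i)).resolve_right (inv_ne_zero hg)

end Pool.Agent.V1157.KL
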