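import Pool.Agent.V1157.KL.KumW
import Pool.Agent.V1157.KL.KumU

/-!
Sections over a log canonical pair which is canonical outside of the boundary are logarithmic forms.
-/

set_option autoImplicit false

open FF Pool.Agent.W602.GT Pool.Agent.W603.LV Pool.Agent.TH122.AB Pool.Agent.TH766.MC
open Pool.Agent.Y172 Pool.Agent.Y191

namespace Pool.Agent.V1157.KL

/-- The pair `(X, Δ)` has canonical singularities outside of the places in `Bd`: for every prime
divisor `Q` over `X` which is not in `Bd` there is an `r`-canonical form `η` which generates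
`r (K_X + Δ)` at the centre of `Q` on `X` and is regular along `Q`. -/
def CanonicalOff {K : Type} [Field K] [Algebra ℂ K] {N : ℕ} (y : Fin (N + 1) → K) (n : ℕ)
    (Δ : Place ℂ K → ℚ) (Bd : Place ℂ K → Prop) : Prop :=
  ∀ Q : Place ℂ K, Divisorial n Q → ¬ Bd Q → ∃ r : ℕ, 0 < r ∧
    ∃ η : (Fin n → Derivation ℂ K K) → K, IsPluri r η ∧
      (∀ P, IsPrimeDivisor y P → Through y P Q → OrdEq P η (-(r * Δ P))) ∧ OrdGe Q η 0

variable {K : Type} [Field K] [Algebra ℂ K] {N : ℕ} {y : Fin (N + 1) → K} {n : ℕ}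

/-- comparison of a section with a local generator -/
theorem sec_comp (hy : NormalModel y) (hn : Algebra.trdeg ℂ K = n) {Δ : Place ℂ K → ℚ}
    {Q : Place ℂ K} {r m : ℕ} (hr : 0 < r)
    {η ω : (Fin n → Derivation ℂ K K) → K} (hη : IsPluri r η)
    (hηP : ∀ P, IsPrimeDivisor y P → Through y P Q → OrdEq P η (-(r * Δ P)))
    (hω : PairSec n {P | IsPrimeDivisor y P} (fun P => (Δ P : ℝ)) m ω)
    {D : Fin n → Derivation ℂ K K} (hD : IsFrame D) :
    ω D = 0 ∨ (η D ≠ 0 ∧ (m : ℤ) * Q.ord (η D) ≤ r * Q.ord (ω D)) := by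
  classical
  by_cases hωD : ω D = 0
  · exact Or.inl hωD
  right
  have hηD : η D ≠ 0 := by
    intro h
    obtain ⟨P, hP, hPQ⟩ := exists_through hy Q
    obtain ⟨-, E, -, hE0, -⟩ := hηP P hP hPQ
    have h1 := pluri_zero hD hη h
    rw [h1] at hE0
    exact hE0 rfl
  refine ⟨hηD, ?_⟩
  obtain ⟨F, hF⟩ : ∃ F, F = ω D ^ r / η D ^ m := ⟨_, rfl⟩
  have h1 : ω D ^ r ≠ 0 := pow_ne_zero _ hωD
  have h3 : η D ^ m ≠ 0 := pow_ne_zero _ hηD
  have hF0 : F ≠ 0 := by
    rw [hF]
    exact div_ne_zero h1 h3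
  have hFreg : F ∈ localRing y Q := by
    refine mem_localRing_of_reg hy fun P hP hPQ => ?_
    obtain ⟨-, E, hE, hE0, hEo⟩ := hηP P hP hPQ
    choose C hC using fun i => hD (E i)
    have e1 : E = fun i => ∑ j, Matrix.of C i j • D j := funext hC
    have hE1 : η E = (Matrix.of C).det ^ r * η D := by
      conv_lhs => rw [e1]
      exact hη _ _
    have hE2 : ω E = (Matrix.of C).det ^ m * ω D := by
      conv_lhs => rw [e1]
      exact hω.1 _ _
    obtain ⟨c, hc⟩ : ∃ c, c = (Matrix.of C).det := ⟨_, rfl⟩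
    rw [← hc] at hE1 hE2
    have hc0 : c ≠ 0 := by
      rintro rfl
      rw [zero_pow hr.ne', zero_mul] at hE1
      exact hE0 hE1
    have hωE : ω E ≠ 0 := by
      rw [hE2]
      exact mul_ne_zero (pow_ne_zero _ hc0) hωD
    have hF' : F = ω E ^ r / η E ^ m := by
      rw [hF, hE1, hE2, mul_pow, mul_pow, ← pow_mul, ← pow_mul, mul_comm r m]
      have h4 : c ^ (m * r) ≠ 0 := pow_ne_zero _ hc0
      field_simp
    have h4 : -((m : ℝ) * Δ P) ≤ (P.ord (ω E) : ℝ) :=
      ((hω.2 P hP (hP.divisorial hy hn) E hE).resolve_left hωE)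
    rw [P.reg_iff hF0, hF', P.ord_div (pow_ne_zero _ hωE) (pow_ne_zero _ hE0), P.ord_pow,
      P.ord_pow]
    have h4' : -((m : ℚ) * Δ P) ≤ (P.ord (ω E) : ℚ) := by exact_mod_cast h4
    have h6 : (0 : ℚ) ≤ (r * P.ord (ω E) - m * P.ord (η E) : ℚ) := by
      rw [hEo]
      have hr' : (0 : ℚ) < r := by exact_mod_cast hr
      nlinarith
    exact_mod_cast h6
  have h4 := (Q.reg_iff hF0).1 (localRing_reg hFreg)
  rw [hF, Q.ord_div h1 h3, Q.ord_pow, Q.ord_pow] at h4
  linarith

/-- frames -/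
theorem frame_or (hn : Algebra.trdeg ℂ K = n) (D : Fin n → Derivation ℂ K K) :
    IsFrame D ∨ ∀ (m : ℕ), 0 < m → ∀ ω : (Fin n → Derivation ℂ K K) → K, IsPluri m ω → ω D = 0 := by
  classical
  -- a transcendence basis
  obtain ⟨x, hx⟩ : ∃ x : Fin n → K, IsTranscendenceBasis ℂ x := by
    obtain ⟨t, ht⟩ := exists_isTranscendenceBasis ℂ K
    have h1 := ht.cardinalMk_eq_trdeg
    rw [hn] at h1
    obtain ⟨φ⟩ : Nonempty (Fin n ≃ t) := by
      rw [← Cardinal.eq, Cardinal.mk_fin]
      exact h1.symm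
    exact ⟨fun i => (φ i : K), ht.comp_equiv φ⟩
  choose E hE using fun i => exists_der x hx (fun j => if i = j then (1 : K) else 0)
  have hexp : ∀ G : Derivation ℂ K K, G = ∑ j, G (x j) • E j := by
    intro G
    refine der_ext x hx fun a => ?_
    rw [sum_smul_apply, Finset.sum_eq_single a]
    · rw [hE, if_pos rfl, mul_one]
    · intro b _ hb
      rw [hE, if_neg hb, mul_zero]
    · intro h
      exact absurd (Finset.mem_univ a) h
  obtain ⟨M, hM⟩ : ∃ M : Matrix (Fin n) (Fin n) K, M = Matrix.of fun i j => D i (x j) := ⟨_, rfl⟩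
  have hDM : D = fun i => ∑ j, M i j • E j := by
    funext i
    rw [hM]
    exact hexp (D i)
  by_cases hdet : M.det = 0
  · right
    intro m hm ω hω
    rw [hDM, hω, hdet, zero_pow hm.ne', zero_mul]
  · left
    intro G
    obtain ⟨c, hc⟩ : ∃ c : Fin n → K, Matrix.vecMul c M = fun j => G (x j) := by
      refine ⟨Matrix.vecMul (fun j => G (x j)) M⁻¹, ?_⟩
      rw [Matrix.vecMul_vecMul, Matrix.nonsing_inv_mul _ (isUnit_iff_ne_zero.2 hdet),
        Matrix.vecMul_one]
    refine ⟨c, der_ext x hx fun a => ?_⟩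
    rw [sum_smul_apply]
    have h1 := congrFun hc a
    simp only [Matrix.vecMul, dotProduct, hM, Matrix.of_apply] at h1
    exact h1.symm

/-- **Sections of log canonical pairs** which are canonical outside of the boundary. -/
theorem logSec_of_pair (hy : NormalModel y) (hn : Algebra.trdeg ℂ K = n) {Δ : Place ℂ K → ℚ}
    (hLC : LogCanonical y n Δ) {Bd : Place ℂ K → Prop} (hcan : CanonicalOff y n Δ Bd)
    {m : ℕ} (hm : 0 < m) {ω : (Fin n → Derivation ℂ K K) → K}
    (hω : PairSec n {P | IsPrimeDivisor y P} (fun P => (Δ P : ℝ)) m ω) :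
    LogSec ℂ K n m Bd ω := by
  have hess := hy.ess
  refine ⟨hω.1, fun Q hQ D hD => ?_, fun Q hQ hB D hD => ?_⟩
  · rcases frame_or hn D with hfr | h0
    · obtain ⟨r, hr, η, hη, hηP, hηQ⟩ := hLC Q hQ
      rcases sec_comp hy hn hr hη hηP hω hfr (Q := Q) with h | ⟨h1, h2⟩
      · exact Or.inl h
      · right
        have h3 : Ge Q 0 (η D) := log_ge hn hQ hη (fun E hE => by
          rcases hηQ E hE with h | h
          · exact Or.inl h
          · exact Or.inr h) hD
        have h4 := h3.resolve_left h1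
        have h5 : (0 : ℤ) ≤ m * Q.ord (η D) := mul_nonneg (Int.natCast_nonneg m) h4
        have h6 : (0 : ℤ) < r := by exact_mod_cast hr
        by_contra hcon
        push Not at hcon
        nlinarith
    · exact Or.inl (h0 m hm ω hω.1)
  · rcases frame_or hn D with hfr | h0
    · obtain ⟨r, hr, η, hη, hηP, hηQ⟩ := hcan Q hQ hB
      rcases sec_comp hy hn hr hη hηP hω hfr (Q := Q) with h | ⟨h1, h2⟩
      · exact Or.inl h
      · right
        have h4 : (0 : ℤ) ≤ Q.ord (η D) := by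
          have := (hηQ D hD).resolve_left h1
          exact_mod_cast this
        have h5 : (0 : ℤ) ≤ m * Q.ord (η D) := mul_nonneg (Int.natCast_nonneg m) h4
        have h6 : (0 : ℤ) < r := by exact_mod_cast hr
        by_contra hcon
        push Not at hcon
        nlinarith
    · exact Or.inl (h0 m hm ω hω.1)

theorem kodGe_of_pair (hy : NormalModel y) (hn : Algebra.trdeg ℂ K = n) {Δ : Place ℂ K → ℚ}
    (hLC : LogCanonical y n Δ) {Bd : Place ℂ K → Prop} (hcan : CanonicalOff y n Δ Bd) {κ : ℕ}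
    (h : KodairaGe n {P | IsPrimeDivisor y P} (fun P => (Δ P : ℝ)) κ) : KodGe ℂ K n Bd κ := by
  obtain ⟨m, hm, ω, hω, D, hD, hind⟩ := h
  exact ⟨m, hm, ω, fun j => logSec_of_pair hy hn hLC hcan hm (hω j), D, hD, hind⟩

end Pool.Agent.V1157.KL
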