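import Pool.Agent.V1157.KL.Weak2
import Pool.Agent.V1157.KL.Tor
import Pool.Agent.V1157.KL.KodG
import Pool.Agent.Y192.KC.AMain

/-!
Weak abundance for pairs over Kummer covers of subvarieties of projective space.
-/

set_option autoImplicit false

open MvPolynomial FF Pool.Agent.W602.GT Pool.Agent.W603.LV Pool.Agent.Y192.OG Pool.Agent.Y192.KC
  Pool.Agent.W619.PL Pool.Agent.Y547.KS Pool.Agent.Y658.KZ Pool.Agent.Y658.KA

namespace Pool.Agent.V1157.KL

open Pool.Agent.Y153.KZ (yy yy_ne aeval_scale exists_form ep_unit)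
open Pool.Agent.Y379.KG (ep_lm)
open Pool.Agent.Y172 (NormalModel Effective LogCanonical IsPrimeDivisor Integral kodairaDim
  numericalDim)

/-- weak abundance over the covers, from the base of the torus fibration -/
theorem kum_x (n r : ℕ) (X : ZCov n r) (K : Type) [Field K] [Algebra ℂ K] (x : Fin n → Kˣ)
    (hI : ∀ (f : MvPolynomial (Fin (n + 1)) ℂ) (k : ℕ), f.IsHomogeneous k →
      (ep x (laur f) = 0 ↔ f ∈ X.I))
    (ρ p : ℕ) (γ : Fin ρ → Fin n → ℤ) (Γ : Submodule ℤ (Fin n → ℤ)) (F' : Fin (r + 1) → Lau ρ)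
    (B S : Fin (r + 1) → Lau n) (a : Fin (r + 1) → Fin n → ℤ)
    (hΓ : ∀ m, m ∈ Γ ↔ ∃ a : Fin ρ → ℤ, m = ∑ i, a i • γ i) (hSat : Sat Γ)
    (hgr : ∀ g ∈ RingHom.ker (ep x), ∀ q, comp Γ q g ∈ RingHom.ker (ep x))
    (hrel : ∀ j, ep x (B j) ≠ 0 ∧ ep x (S j) ≠ 0 ∧ ep x (lm γ (F' j)) ≠ 0 ∧
        ep x (B j ^ X.eL j * X.FL j) =
          ep x (lm γ (F' j) * AddMonoidAlgebra.single (a j) 1 * S j ^ X.eL j))
    (K' : Type) [Field K'] [Algebra ℂ K'] (x' : Fin ρ → K'ˣ)
    (hx' : ∀ g : Lau ρ, ep x' g = 0 ↔ ep x (lm γ g) = 0)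
    (hgen : IntermediateField.adjoin ℂ (Set.range fun i => (x' i : K')) = ⊤)
    (hLG : LogGeneralType ℂ K' p (fun P => (∃ i, P.ord (x' i : K') ≠ 0) ∨
        ∃ j, ¬ ((X.eL j : ℤ) ∣ P.ord (ep x' (F' j))))) (hnl : ¬ ZLim X) :
    ∃ m0 : ℕ, ∀ m, m0 ≤ m → 0 < m → (∀ j, X.e j ∣ m) →
      ∀ (L : Type) [Field L] [Algebra ℂ L] (t : Fin (n + 1) → L) (w : Fin r → L),
      ZField X m L t w → ∀ d : ℕ, Algebra.trdeg ℂ L = d →
      ∃ q b : ℕ, d = q + b ∧ TorusActs X b ∧ KodGe ℂ L d (OffG X.toCov m t) q ∧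
      ∀ (N : ℕ) (y : Fin (N + 1) → L) (Δ : Place ℂ L → ℚ),
      NormalModel y → Effective y Δ → LogCanonical y d Δ →
      (∀ P, IsPrimeDivisor y P → OffG X.toCov m t P → 1 ≤ Δ P) →
      ∃ κ : ℕ, q ≤ κ ∧ kodairaDim y d Δ = (κ : WithBot ℕ) ∧
        (∀ A, Effective y A → Integral y A → numericalDim y d Δ A = (κ : EReal)) ∧
        Pool.Agent.Y191.KodairaGe d {P | IsPrimeDivisor y P} (fun P => (Δ P : ℝ)) κ := by
  have hEK : Algebra.EssFiniteType ℂ K' := by
    have h1 : (⊤ : IntermediateField ℂ K').FG := by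
      rw [← hgen]
      exact IntermediateField.fg_adjoin_of_finite (Set.finite_range _)
    exact IntermediateField.fg_top_iff.mp h1
  obtain ⟨b, bt, co, co1, co2⟩ := Pool.Agent.Y833.OG.basis_exists Γ hSat
  have hSp : Splt Γ bt co := ⟨co1, co2⟩
  have hy0 : yy x' 0 = 1 := rfl
  have hys : ∀ i : Fin ρ, yy x' i.succ = (x' i : K') := fun i => rfl
  have hgy : IntermediateField.adjoin ℂ (Set.range fun i => yy x' i / yy x' 0) = ⊤ := by
    rw [eq_top_iff, ← hgen, IntermediateField.adjoin_le_iff]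
    rintro _ ⟨i, rfl⟩
    apply IntermediateField.subset_adjoin
    refine ⟨i.succ, ?_⟩
    show yy x' i.succ / yy x' 0 = _
    rw [hy0, div_one, hys]
  have halg : ∀ z : K', IsAlgebraic
      (IntermediateField.adjoin ℂ (Set.range fun i => yy x' i / yy x' 0)) z := by
    intro z
    have hz : z ∈ IntermediateField.adjoin ℂ (Set.range fun i => yy x' i / yy x' 0) := by
      rw [hgy]
      exact IntermediateField.mem_top
    exact isAlgebraic_algebraMap
      (⟨z, hz⟩ : IntermediateField.adjoin ℂ (Set.range fun i => yy x' i / yy x' 0))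
  have hgt : LogGeneralType ℂ K' p (fun P => (∃ i, P.ord (yy x' i) ≠ P.ord (yy x' 0)) ∨
      ∃ j, ¬ ((X.eL j : ℤ) ∣ P.ord (ep x' (F' j)))) := by
    have e : (fun P : Place ℂ K' => (∃ i, P.ord (yy x' i) ≠ P.ord (yy x' 0)) ∨
        ∃ j, ¬ ((X.eL j : ℤ) ∣ P.ord (ep x' (F' j)))) =
        (fun P => (∃ i, P.ord (x' i : K') ≠ 0) ∨
          ∃ j, ¬ ((X.eL j : ℤ) ∣ P.ord (ep x' (F' j)))) := by
      funext P
      apply propext
      apply or_congr_left
      rw [hy0, P.ord_one]
      constructor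
      · rintro ⟨i, hi⟩
        revert hi
        refine Fin.cases ?_ (fun i => ?_) i
        · intro hi
          rw [hy0, P.ord_one] at hi
          exact absurd rfl hi
        · intro hi
          exact ⟨i, hi⟩
      · rintro ⟨i, hi⟩
        exact ⟨i.succ, hi⟩
    rw [e]
    exact hLG
  obtain ⟨μ, hμ⟩ := weak_lgt K' ρ p (yy x')
    (fun P => ∃ j, ¬ ((X.eL j : ℤ) ∣ P.ord (ep x' (F' j)))) (yy_ne x') halg hgt
  obtain ⟨μ', hμ'⟩ := t_a1k K' ρ p b (yy x')
    (fun P => ∃ j, ¬ ((X.eL j : ℤ) ∣ P.ord (ep x' (F' j)))) (yy_ne x') halg hgt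
  refine ⟨max μ μ', fun m hm hm0 hem L _ _ t w hZ d hd => ?_⟩
  have hmμ : μ ≤ m := (le_max_left _ _).trans hm
  have hmμ' : μ' ≤ m := (le_max_right _ _).trans hm
  -- the coordinates do not vanish
  have ht : ∀ i, t i ≠ 0 := by
    intro i h0
    have h1 := (hZ.van (MvPolynomial.X i) 1 (isHomogeneous_X ℂ i)).1 (by
      rw [aeval_X, h0, zero_pow hm0.ne'])
    exact X.hX i h1
  have ht0 := ht 0
  let u : Fin n → Lˣ := fun i => Units.mk0 (t i.succ / t 0) (div_ne_zero (ht _) ht0)
  let z : Fin n → Lˣ := fun i => Units.mk0 ((t i.succ / t 0) ^ m)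
    (pow_ne_zero _ (div_ne_zero (ht _) ht0))
  have hzu : ∀ i, z i = u i ^ m := fun i => Units.ext (by
    rw [Units.val_pow_eq_pow_val]
    rfl)
  have hz : yy z = fun i => (t i / t 0) ^ m := by
    funext i
    refine Fin.cases ?_ (fun i => ?_) i
    · show (1 : L) = _
      rw [div_self ht0, one_pow]
    · rfl
  -- values of forms
  have hval : ∀ (f : MvPolynomial (Fin (n + 1)) ℂ) (k : ℕ), f.IsHomogeneous k →
      aeval (fun i => t i ^ m) f = (t 0 ^ m) ^ k * ep z (laur f) := by
    intro f k hf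
    rw [Pool.Agent.Y153.KZ.ep_laur, hz, ← Y153.KZ.aeval_scale hf]
    congr 2
    funext i
    rw [div_pow, mul_div_cancel₀ _ (pow_ne_zero m ht0)]
  have hker : ∀ g : Lau n, ep x g = 0 ↔ ep z g = 0 := by
    intro g
    obtain ⟨v, D, U, hu, hU, e⟩ := exists_form g
    have h1 : ep x g = 0 ↔ ep x (laur U) = 0 := by
      rw [← e, map_mul, mul_eq_zero]
      exact ⟨Or.inl, fun h => h.resolve_right (ep_unit x hu)⟩
    have h2 : ep z g = 0 ↔ ep z (laur U) = 0 := by
      rw [← e, map_mul, mul_eq_zero]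
      exact ⟨Or.inl, fun h => h.resolve_right (ep_unit z hu)⟩
    rw [h1, h2, hI U D hU, ← hZ.van U D hU, hval U D hU, mul_eq_zero]
    exact ⟨fun h => h.resolve_left (pow_ne_zero _ (pow_ne_zero _ ht0)), Or.inr⟩
  let z' : Fin ρ → Lˣ := fun i => xm z (γ i)
  have hz' : ∀ g : Lau ρ, ep z' g = ep z (lm γ g) := fun g => ep_lm z γ g
  obtain ⟨σ, hσ⟩ := Pool.Agent.Y153.KZ.exists_emb x' z' hgen (fun g => by rw [hx', hz', hker])
  have hσy : ∀ i : Fin ρ, σ (x' i : K') = (z' i : L) := by
    intro i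
    have h1 : ∀ {F : Type} [Field F] [Algebra ℂ F] (u : Fin ρ → Fˣ),
        ep u (AddMonoidAlgebra.single (Pi.single i 1) 1) = (u i : F) := by
      intro F _ _ u
      rw [ep_single, Pool.Agent.Y153.KZ.xm_single, one_smul]
    rw [← h1 x', hσ, h1 z']
  have hwt : ∀ j, X.wt m j * X.e j = m * X.d j := fun j =>
    Nat.div_mul_cancel ((hem j).mul_right _)
  have hzF : ∀ j, (w j / t 0 ^ X.wt m j) ^ X.e j = ep z (laur (X.F j)) := by
    intro j
    rw [div_pow, hZ.eqn j, hval _ _ (X.hF j), ← pow_mul, ← pow_mul, hwt, mul_comm,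
      mul_div_assoc, div_self (pow_ne_zero _ ht0), mul_one]
  -- the relations
  have hrelz : ∀ j, ep z (B j) ≠ 0 ∧ ep z (S j) ≠ 0 ∧ ep z (lm γ (F' j)) ≠ 0 ∧
      ep z (B j ^ X.eL j * X.FL j -
        lm γ (F' j) * AddMonoidAlgebra.single (a j) 1 * S j ^ X.eL j) = 0 := by
    intro j
    obtain ⟨h1, h2, h3, h4⟩ := hrel j
    refine ⟨fun h => h1 ((hker _).2 h), fun h => h2 ((hker _).2 h),
      fun h => h3 ((hker _).2 h), (hker _).1 ?_⟩
    rw [map_sub, h4, sub_self]
  have hcomp : ∀ g : Lau n, ep z g = 0 → ∀ q, ep z (comp Γ q g) = 0 := by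
    intro g hg q
    rw [← hker] at hg ⊢
    exact hgr g hg q
  let _ : Algebra K' L := σ.toRingHom.toAlgebra
  have hST : IsScalarTower ℂ K' L := IsScalarTower.of_algebraMap_eq' (σ.comp_algebraMap).symm
  have hmap : ∀ y : K', algebraMap K' L y = σ y := fun y => rfl
  have hEL : Algebra.EssFiniteType ℂ L := by
    have h1 : (⊤ : IntermediateField ℂ L).FG := by
      rw [← hZ.gen]
      exact IntermediateField.fg_adjoin_of_finite ((Set.finite_range _).union (Set.finite_range _))
    exact IntermediateField.fg_top_iff.mp h1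
  -- the transcendence basis
  have htb : IsTranscendenceBasis K' (fun c => (xm u (bt c) : L)) := by
    refine tb z u m hzu hSp hcomp ?_ ?_ ?_
    · intro e he
      obtain ⟨c, rfl⟩ := (hΓ e).1 he
      refine ⟨(xm x' c : K'), ?_⟩
      rw [hmap]
      have h1 := hσ (AddMonoidAlgebra.single c 1)
      rw [ep_single, ep_single, one_smul, one_smul] at h1
      rw [h1, Pool.Agent.Y379.KG.xm_sum]
      unfold xm
      rw [Units.coe_prod, Units.coe_prod]
      refine Finset.prod_congr rfl fun i _ => ?_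
      have h2 := Pool.Agent.Y379.KG.xm_smul z (c i) (γ i)
      rw [show (∏ i_1, z i_1 ^ (c i • γ i) i_1 : Lˣ) = xm z (c i • γ i) from rfl, h2]
    · intro y
      have h1 : y ∈ IntermediateField.adjoin ℂ (Set.range fun i => (x' i : K')) := by
        rw [hgen]
        exact IntermediateField.mem_top
      have h2 : IntermediateField.adjoin ℂ (Set.range fun i => (x' i : K')) ≤
          (F0 z Γ).comap σ := by
        rw [IntermediateField.adjoin_le_iff]
        rintro _ ⟨i, rfl⟩
        show σ (x' i : K') ∈ F0 z Γ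
        rw [hσy]
        refine IntermediateField.subset_adjoin _ _ ⟨γ i, (hΓ _).2 ⟨Pi.single i 1, ?_⟩, rfl⟩
        rw [Finset.sum_eq_single i]
        · rw [Pi.single_eq_same, one_smul]
        · intro j _ hj
          rw [Pi.single_eq_of_ne hj, zero_smul]
        · intro h
          exact absurd (Finset.mem_univ i) h
      exact h2 h1
    · intro E hE
      have h1 : ∀ i, IsAlgebraic E (t i / t 0) := by
        intro i
        refine Fin.cases ?_ (fun i => ?_) i
        · rw [div_self ht0]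
          exact isAlgebraic_one
        · have h2 : IsAlgebraic E ((t i.succ / t 0) ^ m) := by
            have h3 : (t i.succ / t 0) ^ m = algebraMap E L ⟨(z i : L), hE i⟩ := rfl
            rw [h3]
            exact isAlgebraic_algebraMap _
          exact h2.of_pow hm0
      have h3 : ∀ j, IsAlgebraic E (w j / t 0 ^ X.wt m j) := by
        intro j
        have h4 : IsAlgebraic E ((w j / t 0 ^ X.wt m j) ^ X.e j) := by
          rw [hzF]
          have h5 : ep z (laur (X.F j)) ∈ E.restrictScalars ℂ := ep_mem' z _ hE _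
          exact isAlgebraic_algebraMap (⟨_, h5⟩ : E)
        exact h4.of_pow (X.he j)
      have hCE : IsScalarTower ℂ E L := IsScalarTower.of_algebraMap_eq fun _ => rfl
      have hsub : (⊤ : IntermediateField ℂ L) ≤ (algebraicClosure E L).restrictScalars ℂ := by
        rw [← hZ.gen]
        apply IntermediateField.adjoin_le_iff.mpr
        rintro y (⟨i, rfl⟩ | ⟨j, rfl⟩)
        · exact mem_algebraicClosure_iff.mpr (h1 i)
        · exact mem_algebraicClosure_iff.mpr (h3 j)
      intro y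
      exact mem_algebraicClosure_iff.mp (hsub (IntermediateField.mem_top (x := y)))
  have hdpb : d = p + b := by
    have h1 := trdeg_add_eq ℂ K' (A := L)
    rw [← htb.cardinalMk_eq_trdeg, hLG.1, hd, Cardinal.mk_fin] at h1
    exact_mod_cast h1.symm
  -- the places
  have hplace : ∀ P : Place ℂ L, ¬ OffG X.toCov m t P →
      ((∀ i, P.ord (algebraMap K' L (yy x' i)) = P.ord (algebraMap K' L (yy x' 0))) ∧
        (∀ (P0 : Place ℂ K') (e : ℕ), (∀ z : K', P.ord (algebraMap K' L z) = e * P0.ord z) →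
          (∃ j, ¬ ((X.eL j : ℤ) ∣ P0.ord (ep x' (F' j)))) → e ≠ 1) ∧
          ∀ i, P.ord (t i) = P.ord (t 0)) ∨
      ∃ i j, P.ord (algebraMap K' L (yy x' i)) + m ≤ P.ord (algebraMap K' L (yy x' j)) := by
    intro P hP
    unfold OffG at hP
    push Not at hP
    obtain ⟨c, hc1, hc2, hc3⟩ := hP
    set lam : Fin n → ℤ := fun i => P.ord (z i : L) with hlamdef
    have hlam : ∀ i, lam i = m * (P.ord (t i.succ) - P.ord (t 0)) := by
      intro i
      have h1 : P.ord (z i : L) = P.ord ((t i.succ / t 0) ^ m) := rfl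
      rw [hlamdef]
      change P.ord (z i : L) = _
      rw [h1, P.ord_pow, P.ord_div (ht _) ht0]
    have hxmo : ∀ e : Fin n → ℤ, P.ord ((xm z e : Lˣ) : L) = ∑ i, lam i * e i := ord_xm P z
    have hmul' : ∀ e : Fin n → ℤ, ∑ i, lam i * e i =
        m * Pool.Agent.Y658.KZ.wt (Y658.KA.tw fun i => P.ord (t i)) e := by
      intro e
      unfold Pool.Agent.Y658.KZ.wt Y658.KA.tw
      rw [Finset.mul_sum]
      refine Finset.sum_congr rfl fun i _ => ?_
      rw [hlam]
      ring
    have hmul : ∀ e : Fin n → ℤ, ∃ b : ℤ, ∑ i, lam i * e i = m * b := fun e => ⟨_, hmul' e⟩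
    have hordy : ∀ i : Fin ρ, P.ord (algebraMap K' L (yy x' i.succ)) = ∑ k, lam k * γ i k := by
      intro i
      rw [hmap, hys, hσy]
      exact hxmo (γ i)
    have hordy0 : P.ord (algebraMap K' L (yy x' 0)) = 0 := by rw [hy0, map_one, P.ord_one]
    by_cases hall : ∀ i : Fin ρ, ∑ k, lam k * γ i k = 0
    · left
      have hlamΓ : ∀ e ∈ Γ, ∑ i, lam i * e i = 0 := by
        intro e he
        obtain ⟨b, rfl⟩ := (hΓ e).1 he
        have h1 : ∀ i, lam i * (∑ l, b l • γ l) i = ∑ l, b l * (lam i * γ l i) := by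
          intro i
          rw [Finset.sum_apply, Finset.mul_sum]
          refine Finset.sum_congr rfl fun l _ => ?_
          rw [Pi.smul_apply, smul_eq_mul]
          ring
        rw [Finset.sum_congr rfl fun i _ => h1 i, Finset.sum_comm]
        refine Finset.sum_eq_zero fun l _ => ?_
        rw [← Finset.mul_sum, hall l, mul_zero]
      set κ : ℤ := m * (c - P.ord (t 0)) with hκ
      have hm' : (0 : ℤ) ≤ m := Int.natCast_nonneg m
      have hκ0 : κ ≤ 0 := mul_nonpos_of_nonneg_of_nonpos hm' (by linarith [hc1 0])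
      have hκi : ∀ i, κ ≤ lam i := by
        intro i
        rw [hlam]
        exact mul_le_mul_of_nonneg_left (by linarith [hc1 i.succ]) hm'
      have hmain : P.ord (ep z (lm γ (F' 0))) = 0 ∧ ∑ i, lam i * a 0 i = X.q * κ := by
        obtain ⟨hB0, hS0, hF0, hr0⟩ := hrelz 0
        have he0 : X.eL 0 = 0 := rfl
        have hFL0 : X.FL 0 = laur X.G := rfl
        rw [he0, pow_zero, pow_zero, one_mul, mul_one, hFL0] at hr0
        obtain ⟨hH0, hΛκ⟩ := keyG X P z Γ hcomp γ (F' 0) (a 0) hr0 hF0 κ hκ0 hκi hlamΓ hall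
        have hr1 := hr0
        rw [map_sub, map_mul, ep_single, one_smul, sub_eq_zero] at hr1
        have hup : P.ord (ep z (lm γ (F' 0))) + ∑ i, lam i * a 0 i ≤ X.q * κ := by
          have hv := hval _ _ X.hG
          rw [hr1] at hv
          rw [hv, P.ord_mul (pow_ne_zero _ (pow_ne_zero _ ht0))
            (mul_ne_zero hF0 (Units.ne_zero _)), P.ord_mul hF0 (Units.ne_zero _), hxmo, P.ord_pow,
            P.ord_pow] at hc3
          rw [hκ]
          have h1 : (X.q : ℤ) * (m * (c - P.ord (t 0))) = m * X.q * c - X.q * (m * P.ord (t 0)) := by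
            ring
          rw [h1]
          linarith
        constructor
        · linarith
        · linarith
      have hmz : (m : ℤ) ≠ 0 := by exact_mod_cast hm0.ne'
      have heq : ∀ i, P.ord (t i) = P.ord (t 0) := by
        by_contra hne
        push Not at hne
        obtain ⟨i1, hi1⟩ := hne
        refine hnl (zlim X x hI γ Γ F' B S a hΓ hgr hrel (fun i => P.ord (t i)) ⟨i1, 0, hi1⟩ ?_ c hc1
          hc2 ?_)
        · intro e he
          have h1 := hmul' e
          rw [hlamΓ e he] at h1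
          exact (mul_eq_zero.1 h1.symm).resolve_left hmz
        · have h1 := hmul' (a 0)
          rw [hmain.2, hκ] at h1
          apply mul_left_cancel₀ hmz
          rw [← h1]
          ring
      refine ⟨fun i => ?_, ?_, ?_⟩
      · refine Fin.cases rfl (fun i => ?_) i
        rw [hordy, hordy0, hall]
      · intro P0 s hs hB hs1
        obtain ⟨j, hj⟩ := hB
        apply hj
        have hPj : P0.ord (ep x' (F' j)) = P.ord (ep z (lm γ (F' j))) := by
          have h1 := hs (ep x' (F' j))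
          rw [hs1, Nat.cast_one, one_mul, hmap, hσ, hz'] at h1
          exact h1.symm
        rw [hPj]
        obtain ⟨hB0, hS0, hF0, hr0⟩ := hrelz j
        have hr1 := hr0
        rw [map_sub, map_mul, map_mul, map_mul, map_pow, map_pow, ep_single, one_smul,
          sub_eq_zero] at hr1
        revert hj hPj hB0 hS0 hF0 hr0 hr1
        refine Fin.cases ?_ (fun j => ?_) j
        · intro _ _ hB0 hS0 hF0 hr0 hr1
          show ((0 : ℕ) : ℤ) ∣ P.ord (ep z (lm γ (F' 0)))
          rw [hmain.1]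
          exact dvd_zero _
        · intro _ _ hB0 hS0 hF0 hr0 hr1
          show ((X.e j : ℕ) : ℤ) ∣ P.ord (ep z (lm γ (F' j.succ)))
          have heL : X.eL j.succ = X.e j := rfl
          have hFL : X.FL j.succ = laur (X.F j) := rfl
          rw [heL, hFL, ← hzF] at hr1
          have hw0 : (w j / t 0 ^ X.wt m j) ^ X.e j ≠ 0 := by
            intro h0
            rw [h0, mul_zero] at hr1
            exact mul_ne_zero (mul_ne_zero hF0 (Units.ne_zero _)) (pow_ne_zero _ hS0) hr1.symm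
          have h1 := congrArg P.ord hr1
          rw [P.ord_mul (pow_ne_zero _ hB0) hw0, P.ord_mul (mul_ne_zero hF0 (Units.ne_zero _))
            (pow_ne_zero _ hS0), P.ord_mul hF0 (Units.ne_zero _), P.ord_pow, P.ord_pow, P.ord_pow,
            hxmo] at h1
          obtain ⟨b, hb⟩ := hmul (a j.succ)
          rw [hb] at h1
          obtain ⟨b', hb'⟩ : ((X.e j : ℕ) : ℤ) ∣ (m : ℤ) := by exact_mod_cast hem j
          refine ⟨P.ord (ep z (B j.succ)) + P.ord (w j / t 0 ^ X.wt m j) - b' * b -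
            P.ord (ep z (S j.succ)), ?_⟩
          rw [hb'] at h1
          linear_combination -h1
      · exact heq
    · right
      push Not at hall
      obtain ⟨i, hi⟩ := hall
      obtain ⟨b, hb⟩ := hmul (γ i)
      have hb0 : b ≠ 0 := by
        rintro rfl
        rw [mul_zero] at hb
        exact hi hb
      have h4 : (0 : ℤ) ≤ m := Int.natCast_nonneg m
      rcases lt_or_gt_of_ne hb0 with h5 | h5
      · refine ⟨i.succ, 0, ?_⟩
        rw [hordy, hordy0, hb]
        have h6 : (m : ℤ) * b ≤ m * (-1) := mul_le_mul_of_nonneg_left (by omega) h4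
        linarith
      · refine ⟨0, i.succ, ?_⟩
        rw [hordy, hordy0, hb]
        have h6 : (m : ℤ) * 1 ≤ m * b := mul_le_mul_of_nonneg_left (by omega) h4
        linarith
  subst hdpb
  refine ⟨p, b, rfl, torus_of X x hI γ Γ F' B S a hΓ hgr hrel hSp, ?_, ?_⟩
  · refine hμ' L (fun c => (xm u (bt c) : L)) (OffG X.toCov m t) hd (fun c => Units.ne_zero _)
      htb.1 fun P hP => ?_
    rcases hplace P hP with ⟨h1, h2, h3⟩ | ⟨i, j, hij⟩
    · refine Or.inl ⟨h1, h2, fun c' => ?_⟩
      show P.ord ((xm u (bt c') : Lˣ) : L) = 0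
      rw [ord_xm]
      refine Finset.sum_eq_zero fun i _ => ?_
      have h4 : P.ord (u i : L) = P.ord (t i.succ / t 0) := rfl
      rw [h4, P.ord_div (ht _) ht0, h3, sub_self, zero_mul]
    · right
      refine ⟨i, j, ?_⟩
      have h4 : (μ' : ℤ) ≤ m := by exact_mod_cast hmμ'
      linarith
  intro N yM Δ hyM hΔ hLC hOff
  -- the coefficients
  have hcond : ∀ P, IsPrimeDivisor yM P →
      (∀ g : K', P.ord (algebraMap K' L g) = 0) ∨
        Mult (yy x') (fun P => ∃ j, ¬ ((X.eL j : ℤ) ∣ P.ord (ep x' (F' j)))) μ P (Δ P) := by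
    intro P hP
    by_cases htriv : ∀ g : K', P.ord (algebraMap K' L g) = 0
    · exact Or.inl htriv
    right
    have hΔ0 : (0 : ℝ) ≤ Δ P := by exact_mod_cast hΔ.1 P hP
    have hμ0 : (0 : ℝ) ≤ μ := Nat.cast_nonneg μ
    by_cases hoff : OffG X.toCov m t P
    · right
      have h1 : (1 : ℝ) ≤ Δ P := by exact_mod_cast hOff P hP hoff
      refine ⟨0, 0, ?_⟩
      nlinarith
    rcases hplace P hoff with ⟨h1, h2, -⟩ | ⟨i, j, hij⟩
    · left
      refine ⟨h1, fun P0 e he hB => ?_⟩
      have h3 := h2 P0 e he hB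
      have h4 : e ≠ 0 := by
        rintro rfl
        exact htriv fun g => by rw [he g, Nat.cast_zero, zero_mul]
      have h5 : 2 ≤ e := by omega
      have h6 : (2 : ℝ) ≤ e := by exact_mod_cast h5
      linarith
    · right
      refine ⟨i, j, ?_⟩
      have h1 : (P.ord (algebraMap K' L (yy x' i)) : ℝ) + m ≤
          P.ord (algebraMap K' L (yy x' j)) := by exact_mod_cast hij
      have h2 : (μ : ℝ) ≤ m := by exact_mod_cast hmμ
      nlinarith
  -- the generators
  have hgenL : IntermediateField.adjoin ℂ ({y : L | IsAlgebraic (img K' L) y} ∪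
      Set.range fun i => (u i : L)) = ⊤ := by
    set E : IntermediateField ℂ L := IntermediateField.adjoin ℂ
      ({y : L | IsAlgebraic (img K' L) y} ∪ Set.range fun i => (u i : L)) with hE
    have huE : ∀ i, (u i : L) ∈ E := fun i =>
      IntermediateField.subset_adjoin _ _ (Or.inr ⟨i, rfl⟩)
    have hzE : ∀ i, (z i : L) ∈ E := by
      intro i
      rw [hzu, Units.val_pow_eq_pow_val]
      exact pow_mem (huE i) m
    rw [eq_top_iff, ← hZ.gen, IntermediateField.adjoin_le_iff]
    rintro _ (⟨i, rfl⟩ | ⟨j, rfl⟩)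
    · refine Fin.cases ?_ (fun i => huE i) i
      change t 0 / t 0 ∈ E
      rw [div_self ht0]
      exact one_mem _
    · obtain ⟨hB0, hS0, hF0, hr0⟩ := hrelz j.succ
      have heL : X.eL j.succ = X.e j := rfl
      have hFL : X.FL j.succ = laur (X.F j) := rfl
      have hr1 := hr0
      rw [map_sub, map_mul, map_mul, map_mul, map_pow, map_pow, ep_single, one_smul,
        sub_eq_zero, heL, hFL, ← hzF] at hr1
      obtain ⟨q, hq⟩ := hem j
      have hxa : (xm z (a j.succ) : L) = ((xm u (a j.succ) : L) ^ q) ^ X.e j := by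
        rw [xm_upow z u m hzu, ← pow_mul, mul_comm q, ← hq]
      have hua : (xm u (a j.succ) : L) ^ q ≠ 0 := pow_ne_zero _ (Units.ne_zero _)
      set W : L := w j / t 0 ^ X.wt m j with hW
      set b1 := ep z (B j.succ) with hb1
      set s1 := ep z (S j.succ) with hs1
      set v1 : L := (xm u (a j.succ) : L) ^ q with hv1
      have hkey : (b1 * W / (v1 * s1)) ^ X.e j = ep z (lm γ (F' j.succ)) := by
        rw [div_pow, mul_pow, hr1, hxa, mul_pow]
        field_simp
      have halgW : IsAlgebraic (img K' L) (b1 * W / (v1 * s1)) := by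
        have h1 : IsAlgebraic (img K' L) ((b1 * W / (v1 * s1)) ^ X.e j) := by
          rw [hkey, ← hz', ← hσ]
          exact isAlgebraic_algebraMap (⟨_, mem_img (K := K') (L := L) (ep x' (F' j.succ))⟩ :
            img K' L)
        exact h1.of_pow (X.he j)
      have h2 : b1 * W / (v1 * s1) ∈ E := IntermediateField.subset_adjoin _ _ (Or.inl halgW)
      have h3 : W = (b1 * W / (v1 * s1)) * (v1 * s1) / b1 := by
        field_simp
      change W ∈ E
      rw [h3]
      refine div_mem (mul_mem h2 (mul_mem (pow_mem (xm_mem u E huE _) _) ?_)) ?_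
      · exact ep_mem' z E hzE _
      · exact ep_mem' z E hzE _
  exact hμ L N (p + b) yM Δ hyM hd hΔ hLC hcond n (fun i => (u i : L))
    (fun i => Units.ne_zero _) hgenL (by
      rintro P hP htriv ⟨i, hi⟩
      apply hOff P hP
      by_contra hoff
      rcases hplace P hoff with ⟨-, -, h1⟩ | ⟨i', j', hij⟩
      · apply hi
        have h2 : P.ord (u i : L) = P.ord (t i.succ / t 0) := rfl
        rw [h2, P.ord_div (ht _) ht0, h1, sub_self]
      · rw [htriv, htriv] at hij
        omega)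

/-- **The logarithmic Kodaira dimension and weak abundance over the covers.** -/
theorem kum_core {n r : ℕ} (X : ZCov n r) (hT : ¬ ZLim X) :
    ∃ m0 : ℕ, ∀ m, m0 ≤ m → (∀ j, X.e j ∣ m) →
      ∀ (L : Type) [Field L] [Algebra ℂ L] (t : Fin (n + 1) → L) (w : Fin r → L),
      ZField X m L t w → ∀ d : ℕ, Algebra.trdeg ℂ L = d →
      ∃ q b : ℕ, d = q + b ∧ TorusActs X b ∧ KodGe ℂ L d (OffG X.toCov m t) q ∧
      ∀ (N : ℕ) (y : Fin (N + 1) → L) (Δ : Place ℂ L → ℚ),
      NormalModel y → Effective y Δ → LogCanonical y d Δ →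
      (∀ P, IsPrimeDivisor y P → OffG X.toCov m t P → 1 ≤ Δ P) →
      ∃ κ : ℕ, q ≤ κ ∧ kodairaDim y d Δ = (κ : WithBot ℕ) ∧
        (∀ A, Effective y A → Integral y A → numericalDim y d Δ A = (κ : EReal)) ∧
        Pool.Agent.Y191.KodairaGe d {P | IsPrimeDivisor y P} (fun P => (Δ P : ℝ)) κ := by
  classical
  obtain ⟨K, i1, i2, x, hx, hgen⟩ := exists_K X
  have hFne : ∀ j, ep x (X.FL j) ≠ 0 := by
    intro j
    refine Fin.cases ?_ (fun j => ?_) j
    · intro h
      exact X.hGI ((hx X.G X.q X.hG).mp h)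
    · intro h
      exact X.hFI j ((hx (X.F j) (X.d j) (X.hF j)).mp h)
  -- logarithmic forms
  obtain ⟨ρ, γ, Γ', F', B, S', a', q1, q2, q3, q4, q5, q6, q7⟩ :=
    Pool.Agent.Y438.KS.t_min n (r + 1) K x X.FL X.eL hFne
  let K' : IntermediateField ℂ K := IntermediateField.adjoin ℂ (Set.range fun i => (xm x (γ i) : K))
  have hmem : ∀ i, (xm x (γ i) : K) ∈ K' := fun i => IntermediateField.subset_adjoin _ _ ⟨i, rfl⟩
  let x0 : Fin ρ → K' := fun i => ⟨(xm x (γ i) : K), hmem i⟩
  have hx0 : ∀ i, x0 i ≠ 0 := fun i h => (xm x (γ i)).ne_zero (congrArg Subtype.val h)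
  let x' : Fin ρ → K'ˣ := fun i => Units.mk0 (x0 i) (hx0 i)
  have hep : ∀ g : Lau ρ, K'.val (ep x' g) = ep (fun i => xm x (γ i)) g := by
    intro g
    induction g using AddMonoidAlgebra.induction_linear with
    | zero => rw [map_zero, map_zero, map_zero]
    | add f g hf hg => rw [map_add, map_add, map_add, hf, hg]
    | single m c =>
      rw [ep_single, ep_single, map_smul]
      congr 1
      unfold xm
      rw [Units.coe_prod, Units.coe_prod, map_prod]
      refine Finset.prod_congr rfl fun i _ => ?_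
      rw [Units.val_zpow_eq_zpow_val, Units.val_zpow_eq_zpow_val, map_zpow₀]
      rfl
  have hker : ∀ g : Lau ρ, ep x' g = 0 ↔ ep x (lm γ g) = 0 := by
    intro g
    rw [← q5 g, ← hep g]
    exact (map_eq_zero_iff K'.val K'.val.injective).symm
  have hker2 : ∀ g : Lau ρ, g ∈ RingHom.ker (ep x') ↔
      g ∈ RingHom.ker (ep fun i => xm x (γ i)) := by
    intro g
    rw [RingHom.mem_ker, RingHom.mem_ker, hker, q5]
  have hgen' : IntermediateField.adjoin ℂ (Set.range fun i => (x' i : K')) = ⊤ := by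
    have h3 : (Set.range fun i => (x' i : K')) = Set.range x0 := rfl
    rw [h3]
    apply IntermediateField.lift_injective
    rw [IntermediateField.lift_top, IntermediateField.lift_adjoin]
    congr 1
    rw [← Set.range_comp]
    rfl
  have hred' : ¬ RedL x' F' X.eL := by
    rintro ⟨l, hl0, hl, A1, D1, S1, a1, h1⟩
    refine q7 ⟨l, hl0, fun g hg k => (hker2 _).mp (hl g ((hker2 _).mpr hg) k), A1, D1, S1, a1,
      fun j => ?_⟩
    obtain ⟨h2, h3, h4, h5, h6, h7⟩ := h1 j
    have hne : ∀ g : Lau ρ, ep x' g ≠ 0 → ep (fun i => xm x (γ i)) g ≠ 0 := by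
      intro g hg h
      exact hg ((hker2 g).mpr h)
    refine ⟨h2, h3, hne _ h4, hne _ h5, hne _ h6, ?_⟩
    rw [← hep, ← hep, h7]
  obtain ⟨p, hp⟩ := finite_trdeg (fun i => (x' i : K')) hgen'
  have hF' : ∀ j, ep x' (F' j) ≠ 0 := fun j h => (q6 j).2.2.1 ((hker _).mp h)
  have hlg : LogGeneralType ℂ K' p (fun P => (∃ i, P.ord (x' i : K') ≠ 0) ∨
      ∃ j, ¬ ((X.eL j : ℤ) ∣ P.ord (ep x' (F' j)))) := by
    rcases Nat.eq_zero_or_pos p with hp0 | hp1
    · subst hp0
      exact lgt_zero hp _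
    · exact zlg_all ρ (r + 1) K' x' F' X.eL p hF' hgen' hp hp1 hred'
  obtain ⟨m2, hm2⟩ := kum_x n r X K x hx ρ p γ Γ' F' B S' a' q2 q3 q4 q6 K' x' hker hgen'
    hlg hT
  exact ⟨max 1 m2, fun m hm he L _ _ t w hF => hm2 m ((le_max_right _ _).trans hm)
    (lt_of_lt_of_le one_pos ((le_max_left _ _).trans hm)) he L t w hF⟩

end Pool.Agent.V1157.KL
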