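import Pool.Agent.V1157.KL.Comb
import Pool.Agent.Y191.LcCan
import Pool.Agent.Y191.LcRam

/-!
Abundance for pairs whose fibres over a variety of log general type correspond to moving log
canonical arrangements.
-/

set_option autoImplicit false
set_option linter.overlappingInstances false
set_option linter.unusedSectionVars false

open FF Pool.Agent.W602.GT Pool.Agent.W603.LV Pool.Agent.TH585.SV Pool.Agent.W619.PQ
open Pool.Agent.Y172 Pool.Agent.Y191

namespace Pool.Agent.V1157.KL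

/-- places which are trivial on the image of the field of the base -/
theorem triv_img' {K L : Type} [Field K] [Algebra ℂ K] [Field L] [Algebra ℂ L] [Algebra K L]
    [IsScalarTower ℂ K L] {P : Place ℂ L} :
    (∀ f ∈ img K L, f ≠ 0 → P.ord f = 0) ↔ ∀ g : K, P.ord (algebraMap K L g) = 0 := by
  constructor
  · intro h g
    by_cases hg : g = 0
    · rw [hg, map_zero, P.ord_zero]
    · exact h _ (mem_img g) ((map_ne_zero _).2 hg)
  · rintro h _ ⟨g, rfl⟩ _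
    exact h g

theorem trdeg_over_img {K L : Type} [Field K] [Algebra ℂ K] [Field L] [Algebra ℂ L]
    [Algebra K L] [IsScalarTower ℂ K L] {p e : ℕ} (hp : Algebra.trdeg ℂ K = p)
    (hL : Algebra.trdeg ℂ L = (p + e : ℕ)) : Algebra.trdeg (img K L) L = e := by
  have h1 := trdeg_add_eq ℂ (img K L) (A := L)
  rw [trdeg_img hp, hL] at h1
  push_cast at h1
  rw [add_comm, add_comm (p : Cardinal)] at h1
  exact (Cardinal.add_right_inj_of_lt_aleph0 (Cardinal.natCast_lt_aleph0 (n := p))).mp h1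

/-- products of the forms of the base and of forms along the fibres, for a pair -/
theorem fib_pair {K : Type} [Field K] [Algebra ℂ K] {n p : ℕ} {y : Fin (n + 1) → K}
    {B : Place ℂ K → Prop} {μ : ℕ}
    (hμ : ∀ (L : Type) [Field L] [Algebra ℂ L] [Algebra K L] [IsScalarTower ℂ K L]
      (s lam : ℕ), Algebra.trdeg ℂ L = (p + s : ℕ) →
      ∀ (X : Set (Place ℂ L)) (δ₁ δ₂ δ : Place ℂ L → ℝ), (∀ P ∈ X, δ₁ P + δ₂ P ≤ δ P) →
      (∀ P ∈ X, 0 ≤ δ₁ P) →
      (∀ P ∈ X, Divisorial (p + s) P →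
        (∀ g : K, P.ord (algebraMap K L g) = 0) ∨ Mult y B μ P (δ₁ P)) →
      ∀ m : ℕ, 0 < m → ∀ θ : Fin (lam + 1) → (Fin s → Derivation (img K L) L L) → L,
      (∀ j, FibSec (p + s) m X δ₂ (img K L) (θ j)) →
      (∃ G, θ 0 G ≠ 0 ∧
        AlgebraicIndependent (img K L) (fun i : Fin lam => θ i.succ G / θ 0 G)) →
      KodairaGe (p + s) X δ (p + lam))
    {L : Type} [Field L] [Algebra ℂ L] [Algebra K L] [IsScalarTower ℂ K L]
    {s lam : ℕ} (hL : Algebra.trdeg ℂ L = (p + s : ℕ)) (X : Set (Place ℂ L))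
    (Δ : Place ℂ L → ℝ) (hΔ : ∀ P ∈ X, 0 ≤ Δ P)
    (hcond : ∀ P ∈ X, (∀ g : K, P.ord (algebraMap K L g) = 0) ∨ Mult y B μ P (Δ P))
    (hfib : ∀ δ₂ : Place ℂ L → ℝ, (∀ P ∈ X, 0 ≤ δ₂ P) →
      (∀ P, (∀ f ∈ img K L, f ≠ 0 → P.ord f = 0) → δ₂ P = Δ P) →
      ∃ M : ℕ, 0 < M ∧ ∃ θ : Fin (lam + 1) → (Fin s → Derivation (img K L) L L) → L,
        (∀ b, FibSec (p + s) M X δ₂ (img K L) (θ b)) ∧ ∃ G, θ 0 G ≠ 0 ∧
          AlgebraicIndependent (img K L) (fun i : Fin lam => θ i.succ G / θ 0 G)) :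
    KodairaGe (p + s) X Δ (p + lam) := by
  classical
  obtain ⟨tr, htr⟩ : ∃ tr : Place ℂ L → Prop, ∀ P, tr P ↔
      ∀ g : K, P.ord (algebraMap K L g) = 0 := ⟨_, fun _ => Iff.rfl⟩
  obtain ⟨M, hM, θ, hθ, hne⟩ := hfib (fun P => if tr P then Δ P else 0) (fun P hP => by
    change 0 ≤ if tr P then Δ P else 0
    split_ifs
    · exact hΔ P hP
    · exact le_rfl) (fun P hP => if_pos ((htr P).2 (triv_img'.1 hP)))
  refine hμ L s lam hL X (fun P => if tr P then 0 else Δ P) _ Δ (fun P _ => ?_) (fun P hP => ?_)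
    (fun P hP _ => ?_) M hM θ hθ hne
  · change (if tr P then 0 else Δ P) + (if tr P then Δ P else 0) ≤ Δ P
    split_ifs <;> simp
  · change 0 ≤ if tr P then 0 else Δ P
    split_ifs
    · exact le_rfl
    · exact hΔ P hP
  · by_cases ht : tr P
    · exact Or.inl ((htr P).1 ht)
    · change _ ∨ Mult y B μ P (if tr P then 0 else Δ P)
      rw [if_neg ht]
      exact hcond P hP

/-- **Abundance**, moving log canonical arrangements over a base of log general type. -/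
theorem lc_lgt (K0 : Type) [Field K0] [Algebra ℂ K0] [Algebra.EssFiniteType ℂ K0] (n p : ℕ)
    (y : Fin (n + 1) → K0) (B : Place ℂ K0 → Prop) (hy : ∀ i, y i ≠ 0)
    (halg : ∀ z : K0, IsAlgebraic (IntermediateField.adjoin ℂ (Set.range fun i => y i / y 0)) z)
    (hgt : LogGeneralType ℂ K0 p (fun P => (∃ i, P.ord (y i) ≠ P.ord (y 0)) ∨ B P)) :
    ∃ μ : ℕ, ∀ (K : Type) [Field K] [Algebra ℂ K] [Algebra K0 K] [IsScalarTower ℂ K0 K]
      (N c : ℕ) (r q : Fin c → ℕ) (x : Fin (N + 1) → K) (Δ : Place ℂ K → ℚ), NormalModel x →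
      Algebra.trdeg ℂ K = (p + ∑ j, r j : ℕ) → Effective x Δ →
      (∀ P, IsPrimeDivisor x P →
        (∀ g : K0, P.ord (algebraMap K0 K g) = 0) ∨ Mult y B μ P (Δ P)) →
      ∀ (w : ∀ j, Fin (q j) → ℚ), (∀ j, 1 ≤ r j ∧ ∀ i, 0 ≤ w j i ∧ w j i ≤ 1) →
      ∀ (K' : Type) [Field K'] [Algebra ℂ K'] [Algebra K K'] [IsScalarTower ℂ K K']
        [FiniteDimensional K K'] (A : ∀ j, Fin (q j) → Fin (r j + 1) → K')
        (u : (Σ j, Fin (r j)) → K'),
      LcArr (upF K' (img K0 K)) A w → IsTranscendenceBasis (upF K' (img K0 K)) u →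
      LcHor (img K0 K) A u w {P | IsPrimeDivisor x P} (fun P => (Δ P : ℝ)) →
      Cor x (p + ∑ j, r j) Δ (upF K' (img K0 K)) A u w →
      ((∃ j, ∑ i, w j i < r j + 1) → kodairaDim x (p + ∑ j, r j) Δ = ⊥ ∧
        ∀ A, Effective x A → numericalDim x (p + ∑ j, r j) Δ A = ⊥) ∧
      ∀ lam : ℕ, (∀ j, (r j + 1 : ℚ) ≤ ∑ i, w j i) →
        ∑ j, r j = lam + ∑ j, (if ∑ i, w j i = r j + 1 then r j else 0) →
        (∃ κ : Fin lam → Σ j, Fin (r j), Function.Injective κ ∧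
          ∀ i, (r (κ i).1 + 1 : ℚ) < ∑ i', w (κ i).1 i') →
        kodairaDim x (p + ∑ j, r j) Δ = ((p + lam : ℕ) : WithBot ℕ) ∧
          ∀ A, Effective x A → Integral x A →
            numericalDim x (p + ∑ j, r j) Δ A = ((p + lam : ℕ) : EReal) := by
  obtain ⟨μ, hμ⟩ := fib_lgt K0 n p y B hy halg hgt
  refine ⟨μ, ?_⟩
  intro K _ _ _ _ N c r q x Δ hx hn hΔ hcond w hw K' _ _ _ _ _ A u hA hu hH hC
  obtain ⟨h1, h2⟩ := lc_ab hx hn hΔ hA.1 hu (fun j => (hw j).1)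
    (fun j i => ((hw j).2 i).1) (fun j i => ((hw j).2 i).2) hC
  refine ⟨h1, fun lam hws hlam hκ => ?_⟩
  obtain ⟨κ, hκ1, hκ2⟩ := hκ
  refine h2 (p + lam) hws (by omega) ?_
  refine fib_pair hμ hn {P | IsPrimeDivisor x P} (fun P => (Δ P : ℝ)) (fun P hP => by
    exact_mod_cast hΔ.1 P hP) hcond (fun δ₂ h3 h4 => ?_)
  exact lc_low (trdeg_over_img hgt.1 hn) hA finSigmaFinEquiv hu (fun j i => ((hw j).2 i).1) hws
    hκ1 hκ2 h3 (fun P hP htr Q ε hQ c' e he => by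
      rw [h4 P htr]
      exact hH P hP htr Q ε hQ c' e he)

end Pool.Agent.V1157.KL
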