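import Pool.Agent.V1157.KL.LcB

/-!
The Campana-Peternell inequality for pairs whose fibres over a variety of log general type correspond
to moving log canonical arrangements.
-/

set_option autoImplicit false
set_option linter.overlappingInstances false
set_option linter.unusedSectionVars false

open FF Pool.Agent.W602.GT Pool.Agent.W603.LV Pool.Agent.TH585.SV Pool.Agent.W619.PQ
open Pool.Agent.Y172 Pool.Agent.Y191

namespace Pool.Agent.V1157.KL

/-- **The Campana-Peternell inequality**, moving log canonical arrangements over a base of log general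
type. -/
theorem cp_lgt (K0 : Type) [Field K0] [Algebra ℂ K0] [Algebra.EssFiniteType ℂ K0] (n p : ℕ)
    (y : Fin (n + 1) → K0) (B : Place ℂ K0 → Prop) (hy : ∀ i, y i ≠ 0)
    (halg : ∀ z : K0, IsAlgebraic (IntermediateField.adjoin ℂ (Set.range fun i => y i / y 0)) z)
    (hgt : LogGeneralType ℂ K0 p (fun P => (∃ i, P.ord (y i) ≠ P.ord (y 0)) ∨ B P)) :
    ∃ μ : ℕ, ∀ (K : Type) [Field K] [Algebra ℂ K] [Algebra K0 K] [IsScalarTower ℂ K0 K]
      (N c : ℕ) (r q : Fin c → ℕ) (x : Fin (N + 1) → K) (Δ : Place ℂ K → ℚ), NormalModel x →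
      Algebra.trdeg ℂ K = (p + ∑ j, r j : ℕ) → Effective x Δ →
      (∀ P, IsPrimeDivisor x P →
        (∀ g : K0, P.ord (algebraMap K0 K g) = 0) ∨ Mult y B μ P (Δ P)) →
      ∀ (w : ∀ j, Fin (q j) → ℚ), (∀ j, 1 ≤ r j ∧ ∀ i, 0 ≤ w j i ∧ w j i ≤ 1) →
      ∀ (K' : Type) [Field K'] [Algebra ℂ K'] [Algebra K K'] [IsScalarTower ℂ K K']
        [FiniteDimensional K K'] (A : ∀ j, Fin (q j) → Fin (r j + 1) → K')
        (u : (Σ j, Fin (r j)) → K'),
      LcArr (upF K' (img K0 K)) A w → IsTranscendenceBasis (upF K' (img K0 K)) u →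
      LcHor (img K0 K) A u w {P | IsPrimeDivisor x P} (fun P => (Δ P : ℝ)) →
      Cor x (p + ∑ j, r j) Δ (upF K' (img K0 K)) A u w →
      ∀ D : Place ℂ K → ℚ, Effective x D → PsefSub x (p + ∑ j, r j) Δ D →
        (∀ j, (r j + 1 : ℚ) ≤ ∑ i, w j i) ∧
        ∀ lam : ℕ, ∑ j, r j = lam + ∑ j, (if ∑ i, w j i = r j + 1 then r j else 0) →
        (∃ κ : Fin lam → Σ j, Fin (r j), Function.Injective κ ∧
          ∀ i, (r (κ i).1 + 1 : ℚ) < ∑ i', w (κ i).1 i') →
        kodairaDim x (p + ∑ j, r j) Δ = ((p + lam : ℕ) : WithBot ℕ) ∧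
          ∀ h : ℕ, IitakaGe x D h → h ≤ p + lam := by
  obtain ⟨μ, hμ⟩ := lc_lgt K0 n p y B hy halg hgt
  refine ⟨μ, ?_⟩
  intro K _ _ _ _ N c r q x Δ hx hn hΔ hcond w hw K' _ _ _ _ _ A u hA hu hH hC D hD hps
  obtain ⟨h1, h2⟩ := hμ K N c r q x Δ hx hn hΔ hcond w hw K' A u hA hu hH hC
  obtain ⟨h3, h4⟩ := lc_cp hx hn hΔ hA.1 hu (fun j => (hw j).1)
    (fun j i => ((hw j).2 i).1) (fun j i => ((hw j).2 i).2) hC hD hps
  refine ⟨h3, fun lam hlam hκ => ⟨(h2 lam h3 hlam hκ).1, fun h hh => ?_⟩⟩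
  exact h4 (p + lam) h (by omega) hh

end Pool.Agent.V1157.KL
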