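import Pool.Agent.V1157.KL.Comb
import Pool.Agent.Y191.Weak

/-!
Weak abundance for pairs with very affine fibres over varieties of log general type with high
multiplicities.
-/

set_option autoImplicit false
set_option linter.unusedSectionVars false

open FF Pool.Agent.W602.GT Pool.Agent.W603.LV Pool.Agent.TH122.AB Pool.Agent.TH585.SV
open Pool.Agent.Y172 Pool.Agent.Y191

namespace Pool.Agent.V1157.KL

variable {K : Type} [Field K] [Algebra ℂ K] {N : ℕ} {y : Fin (N + 1) → K} {n : ℕ}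

/-- **Weak abundance** from sections of the base: abstract form, with a bound. -/
theorem weak_main2 {Δ : Place ℂ K → ℚ} {p r : ℕ}
    (hy : NormalModel y) (hn : Algebra.trdeg ℂ K = n) (hΔ : Effective y Δ)
    (hLC : LogCanonical y n Δ) {F : IntermediateField ℂ K}
    (hd : Algebra.trdeg ℂ F = p)
    (hbase : ∀ s : ℕ, n = p + s → ∀ δ₁ δ₂ : Place ℂ K → ℝ, ∀ lam : ℕ,
      (∀ P ∈ {P | IsPrimeDivisor y P}, δ₁ P + δ₂ P ≤ Δ P) →
      (∀ P ∈ {P | IsPrimeDivisor y P}, (¬ ∀ f ∈ F, f ≠ 0 → P.ord f = 0) → δ₁ P = Δ P) →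
      (∀ P ∈ {P | IsPrimeDivisor y P}, 0 ≤ δ₁ P) →
      ∀ m : ℕ, 0 < m → ∀ θ : Fin (lam + 1) → (Fin s → Derivation F K K) → K,
      (∀ j, FibSec n m {P | IsPrimeDivisor y P} δ₂ F (θ j)) →
      (∃ G, θ 0 G ≠ 0 ∧
        AlgebraicIndependent F (fun i : Fin lam => θ i.succ G / θ 0 G)) →
      KodairaGe n {P | IsPrimeDivisor y P} (fun P => (Δ P : ℝ)) (p + lam))
    {t : Fin r → K} (ht : ∀ j, t j ≠ 0)
    (hgen : IntermediateField.adjoin ℂ ({x : K | IsAlgebraic F x} ∪ Set.range t) = ⊤)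
    (h2 : ∀ P, IsPrimeDivisor y P → (∀ f ∈ F, f ≠ 0 → P.ord f = 0) →
      (∃ j, P.ord (t j) ≠ 0) → 1 ≤ Δ P) :
    ∃ κ : ℕ, p ≤ κ ∧ kodairaDim y n Δ = (κ : WithBot ℕ) ∧
      (∀ A, Effective y A → Integral y A → numericalDim y n Δ A = (κ : EReal)) ∧
      KodairaGe n {P | IsPrimeDivisor y P} (fun P => (Δ P : ℝ)) κ := by
  classical
  have hess := hy.ess
  -- the fibres
  have hgen' : IntermediateField.adjoin ℂ ((acl ℂ (F : Set K) : Set K) ∪ Set.range t) = ⊤ := by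
    rw [← top_le_iff, ← hgen, IntermediateField.adjoin_le_iff]
    rintro x (hx | hx)
    · exact IntermediateField.subset_adjoin _ _ (Or.inl ((acl_closed (F : Set K)).mem_of_le
        (fun y hy => subset_acl _ hy) hx))
    · exact IntermediateField.subset_adjoin _ _ (Or.inr hx)
  obtain ⟨e, l, M, J, D, u, H, gs⟩ := exists_gs hn ht hgen'
  obtain ⟨B, hB⟩ : ∃ B : MvPolynomial (Fin l) M → Prop, ∀ g, B g ↔ (Irreducible g ∧
      ∀ P, IsPrimeDivisor y P → Adic P u g → 0 < Δ P) := ⟨_, fun _ => Iff.rfl⟩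
  obtain ⟨M1, l', ρ, x, u', fb⟩ := exists_fb hn gs B
  obtain ⟨μ, c, hc, hbas⟩ := full_basis hn gs fb
  -- the dimensions
  have hFe : Algebra.trdeg F K = e := by
    have h3 := gs.bas.cardinalMk_eq_trdeg
    rw [Cardinal.mk_fin] at h3
    exact h3.symm
  have hne : n = p + e := by
    have h3 := trdeg_add_eq ℂ F (A := K)
    rw [hd, hFe, hn] at h3
    exact_mod_cast h3.symm
  have hel : e = l' + (ρ + μ) := by
    have h3 := hbas.cardinalMk_eq_trdeg
    rw [hFe, Cardinal.mk_sum, Cardinal.mk_sum, Cardinal.mk_fin, Cardinal.mk_fin, Cardinal.mk_fin,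
      Cardinal.lift_natCast, Cardinal.lift_natCast, Cardinal.lift_natCast, ← Nat.cast_add,
      Cardinal.lift_natCast, ← Nat.cast_add] at h3
    exact_mod_cast h3.symm
  -- the upper bound
  obtain ⟨E, hE, hEM, hEu⟩ := exists_adapted hn gs.closed gs.ind gs.top
  have hup : ∀ A, Effective y A → ∃ C : ℕ, ∀ m : ℕ, 1 ≤ m → ∀ (r : ℕ) (f : Fin r → K),
      LinearIndependent ℂ f → (∀ i, ∃ ω, Y172.IsSection y n m (m • Δ + A) ω ∧ ω E = f i) →
      r ≤ C * m ^ (p + (ρ + μ)) := by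
    intro A hA
    refine upper hy hn hΔ hLC gs.ind gs.top fb (fun g hg hBg => ?_) hE hEM hEu (by omega) hA
    rw [hB] at hBg
    push Not at hBg
    obtain ⟨P, hP, hPg, hPΔ⟩ := hBg hg
    exact ⟨P, hP, hPg, hPΔ⟩
  -- the coefficients
  let X : Set (Place ℂ K) := {P | IsPrimeDivisor y P}
  have hX : ∀ P, P ∈ X ↔ IsPrimeDivisor y P := fun _ => Iff.rfl
  obtain ⟨tr, htr⟩ : ∃ tr : Place ℂ K → Prop, ∀ P, tr P ↔
      ∀ f ∈ F, f ≠ 0 → P.ord f = 0 := ⟨_, fun _ => Iff.rfl⟩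
  let δ₁ : Place ℂ K → ℝ := fun P => if tr P then 0 else (Δ P : ℝ)
  let δ₂ : Place ℂ K → ℝ := fun P => if tr P then (Δ P : ℝ) else 0
  have hΔ0 : ∀ P ∈ X, (0 : ℝ) ≤ Δ P := fun P hP => by exact_mod_cast hΔ.1 P hP
  have hδ₁ : ∀ P ∈ X, 0 ≤ δ₁ P := by
    intro P hP
    change 0 ≤ if tr P then 0 else (Δ P : ℝ)
    split_ifs
    · exact le_rfl
    · exact hΔ0 P hP
  have hδ₂ : ∀ P ∈ X, 0 ≤ δ₂ P := by
    intro P hP
    change 0 ≤ if tr P then (Δ P : ℝ) else 0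
    split_ifs
    · exact hΔ0 P hP
    · exact le_rfl
  have hδ : ∀ P ∈ X, δ₁ P + δ₂ P ≤ Δ P := by
    intro P _
    change (if tr P then 0 else (Δ P : ℝ)) + (if tr P then (Δ P : ℝ) else 0) ≤ Δ P
    split_ifs <;> simp
  have hδ₂' : ∀ P, (∀ f ∈ F, f ≠ 0 → P.ord f = 0) → δ₂ P = Δ P := fun P hP =>
    if_pos ((htr P).2 hP)
  -- the lower bound
  obtain ⟨m, hm, θ, hθ1, hθ2, hθ3, hθ4⟩ := lower gs fb (X := X) (δ := δ₂) hδ₂
    (by
      rintro P hP ⟨hPF, hPt⟩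
      rw [hδ₂' P hPF]
      exact_mod_cast h2 P hP hPF hPt)
    (by
      intro g hg
      rw [hB] at hg
      refine ⟨hg.1, fun P hP hPg => ?_⟩
      rw [hδ₂' P fun f hf hf0 => hPg.triv f (gs.le hf) hf0]
      exact_mod_cast hg.2 P hP hPg)
    (fun f hf => finite_ord hy hf) hc (by
      have h3 := hbas.1.comp (Sum.inr : Fin ρ ⊕ Fin μ → Fin l' ⊕ (Fin ρ ⊕ Fin μ))
        Sum.inr_injective
      exact h3)
  have hGD : ∀ i, ((Y172.liftD (D i) F (gs.dk i)).restrictScalars ℂ) = D i := by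
    intro i
    ext f
    rfl
  -- the sections
  have hKG := hbase e hne δ₁ δ₂ (ρ + μ) hδ
    (fun P _ hP => if_neg fun h => hP ((htr P).1 h)) hδ₁ m hm
    (fun b G => θ b fun i => (G i).restrictScalars ℂ)
    (by
      intro b
      refine ⟨pluri_restrict (hθ1 b) _, fun P hP _ G hG => ?_⟩
      exact hθ2 b P hP _ (fun i f hf => by
        have : (G i) f = 0 := (G i).map_algebraMap (⟨f, hf⟩ : F)
        exact this) (fun i f hf => hG i f hf))
    (by
      refine ⟨fun i => Y172.liftD (D i) F (gs.dk i), ?_, ?_⟩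
      · simp only [hGD]
        exact hθ3
      · simp only [hGD]
        exact hθ4)
  obtain ⟨m0, hm0, ω, hω, E', h4, h5⟩ := id hKG
  obtain ⟨h6, h7⟩ := dims (k := p + (ρ + μ)) hΔ hE hup hm0 (ω := ω)
    (fun j => ⟨(hω j).1, fun P hP G hG => by
      rcases (hω j).2 P hP (hP.divisorial hy hn) G hG with h6 | h6
      · exact Or.inl h6
      · right
        have e1 : (m0 • Δ) P = m0 * Δ P := by rw [Pi.smul_apply, nsmul_eq_mul]
        rw [e1]
        have h7 : ((-(m0 * Δ P) : ℚ) : ℝ) ≤ ((P.ord (ω j G) : ℚ) : ℝ) := by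
          push_cast
          exact h6
        exact_mod_cast h7⟩) h4 h5
  exact ⟨p + (ρ + μ), by omega, h6, h7, hKG⟩

/-- places which are trivial on the image of the field of the base -/
theorem triv_img {K L : Type} [Field K] [Algebra ℂ K] [Field L] [Algebra ℂ L] [Algebra K L]
    [IsScalarTower ℂ K L] {P : Place ℂ L} :
    (∀ f ∈ img K L, f ≠ 0 → P.ord f = 0) ↔ ∀ g : K, P.ord (algebraMap K L g) = 0 := by
  constructor
  · intro h g
    by_cases hg : g = 0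
    · rw [hg, map_zero, P.ord_zero]
    · exact h _ (mem_img g) ((map_ne_zero _).2 hg)
  · rintro h _ ⟨g, rfl⟩ _
    exact h g

/-- **Weak abundance** for pairs with very affine fibres over a variety of log general type, with
high multiplicities. -/
theorem weak_lgt (K : Type) [Field K] [Algebra ℂ K] [Algebra.EssFiniteType ℂ K] (n p : ℕ)
    (y : Fin (n + 1) → K) (B : Place ℂ K → Prop) (hy : ∀ i, y i ≠ 0)
    (halg : ∀ z : K, IsAlgebraic (IntermediateField.adjoin ℂ (Set.range fun i => y i / y 0)) z)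
    (hgt : LogGeneralType ℂ K p (fun P => (∃ i, P.ord (y i) ≠ P.ord (y 0)) ∨ B P)) :
    ∃ μ : ℕ, ∀ (L : Type) [Field L] [Algebra ℂ L] [Algebra K L] [IsScalarTower ℂ K L]
      (N d : ℕ) (x : Fin (N + 1) → L) (Δ : Place ℂ L → ℚ), NormalModel x →
      Algebra.trdeg ℂ L = d → Effective x Δ → LogCanonical x d Δ →
      (∀ P, IsPrimeDivisor x P →
        (∀ g : K, P.ord (algebraMap K L g) = 0) ∨ Mult y B μ P (Δ P)) →
      ∀ (r : ℕ) (t : Fin r → L), (∀ j, t j ≠ 0) →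
      IntermediateField.adjoin ℂ ({x : L | IsAlgebraic (img K L) x} ∪ Set.range t) = ⊤ →
      (∀ P, IsPrimeDivisor x P → (∀ g : K, P.ord (algebraMap K L g) = 0) →
        (∃ j, P.ord (t j) ≠ 0) → 1 ≤ Δ P) →
      ∃ κ : ℕ, p ≤ κ ∧ kodairaDim x d Δ = (κ : WithBot ℕ) ∧
        (∀ A, Effective x A → Integral x A → numericalDim x d Δ A = (κ : EReal)) ∧
        KodairaGe d {P | IsPrimeDivisor x P} (fun P => (Δ P : ℝ)) κ := by
  obtain ⟨μ, hμ⟩ := fib_lgt K n p y B hy halg hgt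
  refine ⟨μ, ?_⟩
  intro L _ _ _ _ N d x Δ hx hd hΔ hLC hcond r t ht hgen h2
  refine weak_main2 (F := img K L) hx hd hΔ hLC (trdeg_img hgt.1) ?_ ht hgen
    (fun P hP h3 h4 => h2 P hP (triv_img.1 h3) h4)
  rintro s rfl δ₁ δ₂ lam hδ hδ1 hδ0 m hm θ hθ hne
  refine hμ L s lam hd _ δ₁ δ₂ _ hδ hδ0 (fun P hP _ => ?_) m hm θ hθ hne
  by_cases htriv : ∀ f ∈ img K L, f ≠ 0 → P.ord f = 0
  · exact Or.inl (triv_img.1 htriv)
  · rw [hδ1 P hP htriv]
    exact hcond P hP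

end Pool.Agent.V1157.KL
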